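import Pool.Agent.Helper73.C3.Apex
import Pool.Agent.Helper73.C3.Flex
import Pool.Agent.Helper57.TD.TheoremD
import Pool.Agent.Helper57.TOP.Defs
import Pool.Agent.Helper75.GX.Fold2

/-!
# Three-separations: root apices and numbers

`RApex G A l`: the root `l` is an apex of the side `A`. `Sep3 G U A B i j k`: a 3-separation with
both sides of size at least two. `Keep G U A B i j k`: the side `A` can be kept, `B` is replaced by
a flexible link between `i` and `j`. If nothing can be kept then every 3-separation has two sides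
of density two, no edges between the roots and no root apices.
-/

set_option autoImplicit false

namespace Pool.Agent.Helper75.SEP

open SimpleGraph Pool.Agent.Helper57.TOK Pool.Agent.Helper57.TD Pool.Agent.Helper82.TK
  Pool.Agent.Helper51.GX Pool.Agent.Helper75.GX Pool.Agent.Helper57.TOP Pool.Agent.Helper73.C3

variable {V : Type*}

/-- The root `l` is an apex of the side `A`. -/
def RApex (G : SimpleGraph V) (A : Set V) (l : V) : Prop :=
  ∃ κ : V → ZMod 2, ∀ u v, u ∈ A → v ≠ l → G.Adj u v → κ u ≠ κ v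

/-- A three-separation. -/
structure Sep3 (G : SimpleGraph V) (U A B : Set V) (i j k : V) : Prop where
  AU : A ⊆ U
  BU : B ⊆ U
  NA : Nb G A = {i, j, k}
  NB : Nb G B = {i, j, k}
  ij : i ≠ j
  ik : i ≠ k
  jk : j ≠ k
  cov : ∀ u ∈ U, u ∈ A ∨ u ∈ B ∨ u = i ∨ u = j ∨ u = k
  disj : Disjoint A B
  A2 : 2 ≤ A.ncard
  B2 : 2 ≤ B.ncard

open Classical in
/-- Is `i j` an edge? -/
noncomputable def rr (G : SimpleGraph V) (i j : V) : ℤ := if G.Adj i j then 1 else 0

/-- Number of edges between the roots. -/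
noncomputable def eL (G : SimpleGraph V) (i j k : V) : ℤ := rr G i j + rr G i k + rr G j k

/-- The side `A` can be kept. -/
structure Keep (G : SimpleGraph V) (U A B : Set V) (i j k : V) : Prop extends
    Sep3 G U A B i j k where
  Bk : ¬ RApex G B k
  Ai : ¬ RApex G A i
  Aj : ¬ RApex G A j
  num : 3 ≤ fden G A + eL G i j k - rr G i j

/-- What is used of the minimal counterexample. -/
structure CB (G : SimpleGraph V) (U : Set V) : Prop where
  edge_mem : ∀ u v, G.Adj u v → u ∈ U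
  deg3 : ∀ y ∈ U, 3 ≤ (G.neighborSet y).ncard
  conn : ∀ Y ⊆ U, 2 ≤ Y.ncard → (Nb G Y).ncard ≤ 2 → (U \ (Y ∪ Nb G Y)).ncard ≤ 1
  dens : 2 * U.ncard ≤ G.edgeSet.ncard + 2
  P1 : ∀ Y ⊆ U, 2 ≤ Y.ncard → ∀ κ, Bal G κ Y → 4 ≤ (Nb G Y).ncard
  ind3 : ∀ z1 z2 : V, ∀ κ : V → ZMod 2, ¬ ∀ u v, u ∉ ({z1, z2} : Set V) →
    v ∉ ({z1, z2} : Set V) → G.Adj u v → κ u ≠ κ v
  noT : ¬ HasTOK4s G (fun _ => 1)

lemma rr_comm (G : SimpleGraph V) (i j : V) : rr G i j = rr G j i := by
  unfold rr; rw [G.adj_comm i j]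

lemma rr_cases (G : SimpleGraph V) (i j : V) : rr G i j = 0 ∨ rr G i j = 1 := by
  unfold rr; split_ifs <;> simp

lemma rr_zero {G : SimpleGraph V} {i j : V} (h : rr G i j = 0) : ¬ G.Adj i j := by
  intro h1
  unfold rr at h
  rw [if_pos h1] at h
  exact one_ne_zero h

section

variable {G : SimpleGraph V} {U A B : Set V} {i j k : V}

lemma Sep3.swap (s : Sep3 G U A B i j k) : Sep3 G U A B j i k where
  AU := s.AU
  BU := s.BU
  NA := by rw [s.NA, Set.insert_comm]
  NB := by rw [s.NB, Set.insert_comm]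
  ij := s.ij.symm
  ik := s.jk
  jk := s.ik
  cov := fun u hu => by have := s.cov u hu; tauto
  disj := s.disj
  A2 := s.A2
  B2 := s.B2

lemma Sep3.rot (s : Sep3 G U A B i j k) : Sep3 G U A B j k i where
  AU := s.AU
  BU := s.BU
  NA := by rw [s.NA]; ext z; simp only [Set.mem_insert_iff, Set.mem_singleton_iff]; tauto
  NB := by rw [s.NB]; ext z; simp only [Set.mem_insert_iff, Set.mem_singleton_iff]; tauto
  ij := s.jk
  ik := s.ij.symm
  jk := s.ik.symm
  cov := fun u hu => by have := s.cov u hu; tauto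
  disj := s.disj
  A2 := s.A2
  B2 := s.B2

lemma Sep3.flip (s : Sep3 G U A B i j k) : Sep3 G U B A i j k where
  AU := s.BU
  BU := s.AU
  NA := s.NB
  NB := s.NA
  ij := s.ij
  ik := s.ik
  jk := s.jk
  cov := fun u hu => by have := s.cov u hu; tauto
  disj := s.disj.symm
  A2 := s.B2
  B2 := s.A2

lemma Sep3.notA (s : Sep3 G U A B i j k) {l : V} (hl : l = i ∨ l = j ∨ l = k) : l ∉ A := by
  have h1 : l ∈ Nb G A := by rw [s.NA]; exact hl
  exact h1.1

lemma Sep3.notB (s : Sep3 G U A B i j k) {l : V} (hl : l = i ∨ l = j ∨ l = k) : l ∉ B :=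
  s.flip.notA hl

lemma Sep3.rootU (s : Sep3 G U A B i j k) (hm : ∀ u v, G.Adj u v → u ∈ U) {l : V}
    (hl : l = i ∨ l = j ∨ l = k) : l ∈ U := by
  have h1 : l ∈ Nb G A := by rw [s.NA]; exact hl
  obtain ⟨-, u, -, hu⟩ := h1
  exact hm l u hu.symm

lemma Sep3.nbA (s : Sep3 G U A B i j k) {u v : V} (hu : u ∈ A) (huv : G.Adj u v) :
    v ∈ A ∨ v = i ∨ v = j ∨ v = k := by
  by_cases hv : v ∈ A
  · exact Or.inl hv
  · right
    have h1 : v ∈ Nb G A := ⟨hv, u, hu, huv⟩
    rw [s.NA] at h1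
    exact h1

lemma Sep3.nbB (s : Sep3 G U A B i j k) {u v : V} (hu : u ∈ B) (huv : G.Adj u v) :
    v ∈ B ∨ v = i ∨ v = j ∨ v = k := s.flip.nbA hu huv

lemma Sep3.card [Finite V] (s : Sep3 G U A B i j k) (hm : ∀ u v, G.Adj u v → u ∈ U) :
    U.ncard = A.ncard + B.ncard + 3 := by
  classical
  have h1 : U = (A ∪ B) ∪ {i, j, k} := by
    apply Set.Subset.antisymm
    · intro u hu
      rcases s.cov u hu with h | h | h
      · exact Or.inl (Or.inl h)
      · exact Or.inl (Or.inr h)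
      · exact Or.inr h
    · rintro u ((h | h) | h)
      · exact s.AU h
      · exact s.BU h
      · exact s.rootU hm h
  rw [h1, Set.ncard_union_eq _ (Set.toFinite _) (Set.toFinite _), Set.ncard_union_eq s.disj
    (Set.toFinite _) (Set.toFinite _), Set.ncard_eq_three.2 ⟨i, j, k, s.ij, s.ik, s.jk, rfl⟩]
  rw [Set.disjoint_left]
  rintro u (h | h) h'
  · exact s.notA h' h
  · exact s.notB h' h

/-- Every small set gives a separation. -/
lemma Sep3.of_set [Finite V] (hm : ∀ u v, G.Adj u v → u ∈ U)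
    (hconn : ∀ Y ⊆ U, 2 ≤ Y.ncard → (Nb G Y).ncard ≤ 2 → (U \ (Y ∪ Nb G Y)).ncard ≤ 1)
    (hA : A ⊆ U) (hA2 : 2 ≤ A.ncard) (hN : Nb G A = {i, j, k}) (hij : i ≠ j) (hik : i ≠ k)
    (hjk : j ≠ k) (hr : 2 ≤ (U \ (A ∪ Nb G A)).ncard) :
    Sep3 G U A (U \ (A ∪ Nb G A)) i j k := by
  classical
  set B := U \ (A ∪ Nb G A) with hB
  have hBN : Nb G B ⊆ Nb G A := by
    rintro v ⟨hv, u, hu, huv⟩
    by_contra hvA
    have hvU := hm v u huv.symm
    have hvA' : v ∈ A := by
      by_contra h1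
      exact hv ⟨hvU, by rintro (h2 | h2); exacts [h1 h2, hvA h2]⟩
    exact hu.2 (Or.inr ⟨fun h2 => hu.2 (Or.inl h2), v, hvA', huv.symm⟩)
  have hN3 : (Nb G A).ncard = 3 := by
    rw [hN]; exact Set.ncard_eq_three.2 ⟨i, j, k, hij, hik, hjk, rfl⟩
  have hB3 : Nb G B = Nb G A := by
    refine Set.eq_of_subset_of_ncard_le hBN ?_ (Set.toFinite _)
    by_contra hcon
    have h1 := hconn B (fun u hu => hu.1) hr (by omega)
    have h2 : A ⊆ U \ (B ∪ Nb G B) := by
      intro u hu
      refine ⟨hA hu, ?_⟩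
      rintro (h3 | h3)
      · exact h3.2 (Or.inl hu)
      · exact (hBN h3).1 hu
    have h3 := Set.ncard_le_ncard h2 (Set.toFinite _)
    omega
  refine ⟨hA, fun u hu => hu.1, hN, by rw [hB3, hN], hij, hik, hjk, ?_, ?_, hA2, hr⟩
  · intro u hu
    by_cases h1 : u ∈ A
    · exact Or.inl h1
    by_cases h2 : u ∈ Nb G A
    · right; right
      rw [hN] at h2
      exact h2
    · exact Or.inr (Or.inl ⟨hu, by rintro (h3 | h3); exacts [h1 h3, h2 h3]⟩)
  · rw [Set.disjoint_left]
    exact fun u hu hu' => hu'.2 (Or.inl hu)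

/-- Density of the two sides. -/
lemma Sep3.total [Finite V] (s : Sep3 G U A B i j k) (hm : ∀ u v, G.Adj u v → u ∈ U)
    (hd : 2 * U.ncard ≤ G.edgeSet.ncard + 2) :
    4 ≤ fden G A + fden G B + eL G i j k := by
  classical
  have hone : ∀ a b : V, (({e | e = s(a, b) ∧ G.Adj a b} : Set (Sym2 V)).ncard : ℤ) ≤
      rr G a b := by
    intro a b
    by_cases h : G.Adj a b
    · have e : ({e | e = s(a, b) ∧ G.Adj a b} : Set (Sym2 V)) = {s(a, b)} := by
        ext e; simp [h]
      rw [e, Set.ncard_singleton]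
      unfold rr
      rw [if_pos h]
      norm_num
    · have e : ({e | e = s(a, b) ∧ G.Adj a b} : Set (Sym2 V)) = ∅ := by
        ext e; simp [h]
      rw [e, Set.ncard_empty]
      unfold rr
      rw [if_neg h]
      norm_num
  have hsub : G.edgeSet ⊆ (EAt G A ∪ EAt G B) ∪ (({e | e = s(i, j) ∧ G.Adj i j} ∪
      {e | e = s(i, k) ∧ G.Adj i k}) ∪ {e | e = s(j, k) ∧ G.Adj j k}) := by
    intro e
    induction e using Sym2.ind with
    | _ u v =>
      intro he
      rw [SimpleGraph.mem_edgeSet] at he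
      have hu := s.cov u (hm u v he)
      have hv := s.cov v (hm v u he.symm)
      by_cases h1 : u ∈ A ∨ v ∈ A
      · exact Or.inl (Or.inl (mem_EAt.2 ⟨he, h1⟩))
      by_cases h2 : u ∈ B ∨ v ∈ B
      · exact Or.inl (Or.inr (mem_EAt.2 ⟨he, h2⟩))
      push Not at h1 h2
      have hu' : u = i ∨ u = j ∨ u = k := by
        rcases hu with h | h | h
        · exact absurd h h1.1
        · exact absurd h h2.1
        · exact h
      have hv' : v = i ∨ v = j ∨ v = k := by
        rcases hv with h | h | h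
        · exact absurd h h1.2
        · exact absurd h h2.2
        · exact h
      right
      rcases hu' with rfl | rfl | rfl <;> rcases hv' with rfl | rfl | rfl
      · exact absurd rfl he.ne
      · exact Or.inl (Or.inl ⟨rfl, he⟩)
      · exact Or.inl (Or.inr ⟨rfl, he⟩)
      · exact Or.inl (Or.inl ⟨Sym2.eq_swap, he.symm⟩)
      · exact absurd rfl he.ne
      · exact Or.inr ⟨rfl, he⟩
      · exact Or.inl (Or.inr ⟨Sym2.eq_swap, he.symm⟩)
      · exact Or.inr ⟨Sym2.eq_swap, he.symm⟩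
      · exact absurd rfl he.ne
  have h1 := Set.ncard_le_ncard hsub (Set.toFinite _)
  have h2 := Set.ncard_union_le (EAt G A ∪ EAt G B) (({e | e = s(i, j) ∧ G.Adj i j} ∪
      {e | e = s(i, k) ∧ G.Adj i k}) ∪ {e | e = s(j, k) ∧ G.Adj j k})
  have h3 := Set.ncard_union_le (EAt G A) (EAt G B)
  have h4 := Set.ncard_union_le ({e | e = s(i, j) ∧ G.Adj i j} ∪
      {e | e = s(i, k) ∧ G.Adj i k}) ({e | e = s(j, k) ∧ G.Adj j k})
  have h5 := Set.ncard_union_le ({e | e = s(i, j) ∧ G.Adj i j}) ({e | e = s(i, k) ∧ G.Adj i k})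
  have h6 := hone i j
  have h7 := hone i k
  have h8 := hone j k
  have h9 := s.card hm
  have r1 : rho G A = (EAt G A).ncard := rfl
  have r2 : rho G B = (EAt G B).ncard := rfl
  unfold fden eL
  omega

/-- (N1): colourings of both sides away from two roots. -/
lemma Sep3.n1 (s : Sep3 G U A B i j k) (hm : ∀ u v, G.Adj u v → u ∈ U)
    (hi : ∀ κ : V → ZMod 2, ¬ ∀ u v, u ∉ ({i, j} : Set V) → v ∉ ({i, j} : Set V) →
      G.Adj u v → κ u ≠ κ v)
    {κ1 κ2 : V → ZMod 2}
    (h1 : ∀ u v, u ∈ A → v ≠ i → v ≠ j → G.Adj u v → κ1 u ≠ κ1 v)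
    (h2 : ∀ u v, u ∈ B → v ≠ i → v ≠ j → G.Adj u v → κ2 u ≠ κ2 v) : False := by
  classical
  have hkB : k ∉ B := s.notB (Or.inr (Or.inr rfl))
  have hAB : ∀ u, u ∈ A → u ∉ B := fun u hu => Set.disjoint_left.1 s.disj hu
  set κ : V → ZMod 2 := fun u => if u ∈ B then κ2 u + (κ1 k + κ2 k) else κ1 u with hκ
  have kB : ∀ u, u ∈ B → κ u = κ2 u + (κ1 k + κ2 k) := fun u hu => by
    rw [hκ]; simp only [if_pos hu]
  have kN : ∀ u, u ∉ B → κ u = κ1 u := fun u hu => by
    rw [hκ]; simp only [if_neg hu]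
  have hA : ∀ u v, u ∈ A → v ≠ i → v ≠ j → G.Adj u v → κ u ≠ κ v := by
    intro u v hu hvi hvj huv
    have hvB : v ∉ B := by
      rcases s.nbA hu huv with h3 | h3 | h3 | h3
      · exact hAB v h3
      · exact absurd h3 hvi
      · exact absurd h3 hvj
      · rw [h3]; exact hkB
    rw [kN u (hAB u hu), kN v hvB]
    exact h1 u v hu hvi hvj huv
  have hB : ∀ u v, u ∈ B → v ≠ i → v ≠ j → G.Adj u v → κ u ≠ κ v := by
    intro u v hu hvi hvj huv
    have h4 := h2 u v hu hvi hvj huv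
    rcases s.nbB hu huv with h3 | h3 | h3 | h3
    · rw [kB u hu, kB v h3]
      intro hh
      exact h4 (add_right_cancel hh)
    · exact absurd h3 hvi
    · exact absurd h3 hvj
    · rw [kB u hu, kN v (by rw [h3]; exact hkB), h3]
      rw [h3] at h4
      intro hh
      apply h4
      have h5 : κ2 u + (κ1 k + κ2 k) + (κ1 k + κ2 k) = κ1 k + (κ1 k + κ2 k) := by rw [hh]
      rw [add_assoc, zz, add_zero, ← add_assoc, zz, zero_add] at h5
      exact h5
  refine hi κ ?_
  intro u v hu hv huv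
  simp only [Set.mem_insert_iff, Set.mem_singleton_iff, not_or] at hu hv
  rcases s.cov u (hm u v huv) with h3 | h3 | h3 | h3 | h3
  · exact hA u v h3 hv.1 hv.2 huv
  · exact hB u v h3 hv.1 hv.2 huv
  · exact absurd h3 hu.1
  · exact absurd h3 hu.2
  · rcases s.cov v (hm v u huv.symm) with h4 | h4 | h4 | h4 | h4
    · exact (hA v u h4 hu.1 hu.2 huv.symm).symm
    · exact (hB v u h4 hu.1 hu.2 huv.symm).symm
    · exact absurd h4 hv.1
    · exact absurd h4 hv.2
    · exact absurd (h3.trans h4.symm) huv.ne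

/-- (N1): not both sides have root apices. -/
lemma Sep3.one_side (s : Sep3 G U A B i j k) (h : CB G U) {a b : V}
    (ha : a = i ∨ a = j ∨ a = k) (hb : b = i ∨ b = j ∨ b = k)
    (hA : RApex G A a) (hB : RApex G B b) : False := by
  obtain ⟨κ1, h1⟩ := hA
  obtain ⟨κ2, h2⟩ := hB
  have main : ∀ {i j k : V}, Sep3 G U A B i j k → (a = i ∨ a = j) → (b = i ∨ b = j) → False := by
    intro i j k s ha hb
    refine s.n1 h.edge_mem (h.ind3 i j) (κ1 := κ1) (κ2 := κ2) ?_ ?_
    · intro u v hu hvi hvj huv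
      refine h1 u v hu ?_ huv
      rcases ha with rfl | rfl
      · exact hvi
      · exact hvj
    · intro u v hu hvi hvj huv
      refine h2 u v hu ?_ huv
      rcases hb with rfl | rfl
      · exact hvi
      · exact hvj
  rcases ha with ha | ha | ha <;> rcases hb with hb | hb | hb
  · exact main s (Or.inl ha) (Or.inl hb)
  · exact main s (Or.inl ha) (Or.inr hb)
  · exact main s.rot.rot (Or.inr ha) (Or.inl hb)
  · exact main s (Or.inr ha) (Or.inl hb)
  · exact main s (Or.inr ha) (Or.inr hb)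
  · exact main s.rot (Or.inl ha) (Or.inr hb)
  · exact main s.rot.rot (Or.inl ha) (Or.inr hb)
  · exact main s.rot (Or.inr ha) (Or.inl hb)
  · exact main s.rot (Or.inr ha) (Or.inr hb)

/-- (N2): two roots are not apices of one side. -/
lemma Sep3.one_root [Finite V] (s : Sep3 G U A B i j k) (h : CB G U)
    (hi : RApex G A i) (hj : RApex G A j) : False := by
  classical
  obtain ⟨κ1, h1⟩ := hi
  obtain ⟨κ2, h2⟩ := hj
  have hiA : i ∉ A := s.notA (Or.inl rfl)
  have hjA : j ∉ A := s.notA (Or.inr (Or.inl rfl))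
  have hkA : k ∉ A := s.notA (Or.inr (Or.inr rfl))
  set d : V → ZMod 2 := fun u => κ1 u + κ2 u with hd
  -- the difference is constant along the edges
  have hstep : ∀ u v, u ∈ A → v ≠ i → v ≠ j → G.Adj u v → d u = d v := by
    intro u v hu hvi hvj huv
    have e1 := z2_eq_add_one (h1 u v hu hvi huv)
    have e2 := z2_eq_add_one (h2 u v hu hvj huv)
    rw [hd]
    simp only [e1, e2]
    have e3 : κ1 v + 1 + (κ2 v + 1) = κ1 v + κ2 v + (1 + 1) := by ring
    have e4 : (1 : ZMod 2) + 1 = 0 := by decide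
    rw [e3, e4, add_zero]
  set A' : Set V := {u | u ∈ A ∧ d u ≠ d k} with hA'
  have hA'A : A' ⊆ A := fun u hu => hu.1
  have hA'N : ∀ u ∈ A', ∀ v, G.Adj u v → v ∈ A' ∨ v = i ∨ v = j := by
    rintro u ⟨hu, hud⟩ v huv
    by_cases hvi : v = i
    · exact Or.inr (Or.inl hvi)
    by_cases hvj : v = j
    · exact Or.inr (Or.inr hvj)
    have e1 := hstep u v hu hvi hvj huv
    rcases s.nbA hu huv with h3 | h3 | h3 | h3
    · exact Or.inl ⟨h3, e1 ▸ hud⟩
    · exact absurd h3 hvi
    · exact absurd h3 hvj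
    · exact absurd (h3 ▸ e1) hud
  have hNA' : Nb G A' ⊆ {i, j} := by
    rintro v ⟨hv, u, hu, huv⟩
    rcases hA'N u hu v huv with h3 | h3
    · exact absurd h3 hv
    · exact h3
  have hN2 : (Nb G A').ncard ≤ 2 :=
    (Set.ncard_le_ncard hNA' (Set.toFinite _)).trans (by
      have := Set.ncard_insert_le i ({j} : Set V)
      rw [Set.ncard_singleton] at this
      omega)
  have hemp : ∀ u, u ∈ A → d u = d k := by
    intro u hu
    by_contra hne
    have huA' : u ∈ A' := ⟨hu, hne⟩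
    by_cases h2' : 2 ≤ A'.ncard
    · have h3 := h.conn A' (hA'A.trans s.AU) h2' hN2
      have h4 : B ⊆ U \ (A' ∪ Nb G A') := by
        intro w hw
        refine ⟨s.BU hw, ?_⟩
        rintro (h5 | h5)
        · exact Set.disjoint_left.1 s.disj h5.1 hw
        · rcases hNA' h5 with h6 | h6
          · exact s.notB (Or.inl h6) hw
          · exact s.notB (Or.inr (Or.inl h6)) hw
      have h5 := Set.ncard_le_ncard h4 (Set.toFinite _)
      have h6 := s.B2
      omega
    · have h3 : G.neighborSet u ⊆ {i, j} := by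
        intro v hv
        rcases hA'N u huA' v hv with h4 | h4
        · exfalso
          have hsub : ({u, v} : Set V) ⊆ A' := by
            rintro w (rfl | rfl)
            · exact huA'
            · exact h4
          have h5 := Set.ncard_le_ncard hsub (Set.toFinite _)
          have huv : u ≠ v := SimpleGraph.Adj.ne hv
          rw [Set.ncard_pair huv] at h5
          omega
        · exact h4
      have h4 := Set.ncard_le_ncard h3 (Set.toFinite _)
      have h5 := h.deg3 u (s.AU hu)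
      have h6 := Set.ncard_insert_le i ({j} : Set V)
      rw [Set.ncard_singleton] at h6
      omega
  -- the side is balanced
  have hbal : Bal G (fun v => if v = j then κ1 j + d k else κ2 v) A := by
    intro u v hu huv
    have huj : u ≠ j := fun hh => hjA (hh ▸ hu)
    simp only [if_neg huj]
    by_cases hvj : v = j
    · simp only [if_pos hvj]
      have e1 := h1 u j hu s.ij.symm (hvj ▸ huv)
      have e2 : κ1 u = κ2 u + d k := by
        have e3 := hemp u hu
        have e4 : κ1 u + κ2 u = d k := e3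
        rw [← e4, add_comm (κ1 u), ← add_assoc, zz, zero_add]
      intro hh
      apply e1
      rw [e2, hh, add_assoc, zz, add_zero]
    · simp only [if_neg hvj]
      exact h2 u v hu hvj huv
  have h4 := h.P1 A s.AU s.A2 _ hbal
  have h5 : (Nb G A).ncard = 3 := by
    rw [s.NA]; exact Set.ncard_eq_three.2 ⟨i, j, k, s.ij, s.ik, s.jk, rfl⟩
  omega

/-- (T): an apex side has density at most one. -/
lemma Sep3.apex_le [Finite V] (s : Sep3 G U A B i j k) (h : CB G U)
    (hA : RApex G A i) (hB : ¬ RApex G B i) : fden G A ≤ 1 := by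
  by_contra hcon
  obtain ⟨κ, hκ⟩ := hA
  have hNA : Nb G A = {j, k, i} := s.rot.NA
  have hNB : Nb G B = {j, k, i} := s.rot.NB
  have hrA : (U \ (A ∪ Nb G A)).Nonempty := by
    have hB2 := s.B2
    obtain ⟨b, hb⟩ : B.Nonempty := by
      rw [← Set.ncard_pos (Set.toFinite _)]; omega
    refine ⟨b, s.BU hb, ?_⟩
    rintro (h1 | h1)
    · exact Set.disjoint_left.1 s.disj h1 hb
    · rw [s.NA] at h1; exact s.notB h1 hb
  have hrB : (U \ (B ∪ Nb G B)).Nonempty := by
    have hA2 := s.A2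
    obtain ⟨b, hb⟩ : A.Nonempty := by
      rw [← Set.ncard_pos (Set.toFinite _)]; omega
    refine ⟨b, s.AU hb, ?_⟩
    rintro (h1 | h1)
    · exact Set.disjoint_left.1 s.disj hb h1
    · rw [s.NB] at h1; exact s.notA h1 hb
  obtain ⟨Q, hQ, hQw, hQs, -⟩ := flex' (c := fun _ => 1) h.edge_mem h.conn s.BU hNB s.jk
    s.ij.symm s.ik.symm hrB (fun κ' hκ' => hB ⟨κ', fun u v hu hv huv =>
      add_eq_one_iff.1 (hκ' u v hu hv huv).symm⟩) (κ j + κ k + 1)
  refine h.noT (apex_tok (κ := κ) (z := i) (a := j) (b := k) h.edge_mem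
    (fun y hy => (by norm_num : 2 ≤ 3).trans (h.deg3 y hy)) h.conn s.AU hNA s.jk s.ij.symm
    s.ik.symm hrA ?_ ?_ ?_ Q hQ hQw ?_)
  · intro u v hu hv huv
    exact (add_eq_one_iff.2 (hκ u v hu hv huv)).symm
  · intro Y hY hY2 hY3 κ' hb
    exfalso
    have := h.P1 Y (hY.trans s.AU) hY2 κ' (fun u v hu huv => bal_ne hb hu huv)
    omega
  · rw [odG_one]; omega
  · intro x hx
    obtain ⟨h1, h2⟩ := hQs x hx
    refine ⟨?_, h2⟩
    rcases h1 with h1 | h1 | h1
    · exact fun h3 => Set.disjoint_left.1 s.disj h3 h1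
    · rw [h1]; exact s.notA (Or.inr (Or.inl rfl))
    · rw [h1]; exact s.notA (Or.inr (Or.inr rfl))

/-- Numbers, one side has the root apex `i`. -/
lemma Sep3.num_apex [Finite V] (s : Sep3 G U A B i j k) (h : CB G U)
    (hK : ∀ (A B : Set V) (i j k : V), ¬ Keep G U A B i j k) (hA : RApex G A i) : False := by
  have b1 : ¬ RApex G B i := fun hh => s.one_side h (Or.inl rfl) (Or.inl rfl) hA hh
  have b2 : ¬ RApex G B j := fun hh => s.one_side h (Or.inl rfl) (Or.inr (Or.inl rfl)) hA hh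
  have b3 : ¬ RApex G B k := fun hh => s.one_side h (Or.inl rfl) (Or.inr (Or.inr rfl)) hA hh
  have a2 : ¬ RApex G A j := fun hh => s.one_root h hA hh
  have a3 : ¬ RApex G A k := fun hh => s.rot.rot.one_root h hh hA
  have hf := s.apex_le h hA b1
  have ht := s.total h.edge_mem h.dens
  have k1 : ¬ (3 ≤ fden G B + eL G i j k - rr G i j) := fun hh =>
    hK B A i j k ⟨s.flip, a3, b1, b2, hh⟩
  have k2 : ¬ (3 ≤ fden G B + eL G k i j - rr G k i) := fun hh =>
    hK B A k i j ⟨s.flip.rot.rot, a2, b3, b1, hh⟩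
  have k3 : ¬ (3 ≤ fden G A + eL G j k i - rr G j k) := fun hh =>
    hK A B j k i ⟨s.rot, b1, a2, a3, hh⟩
  have r1 := rr_cases G i j
  have r2 := rr_cases G i k
  have r3 := rr_cases G j k
  unfold eL at ht k1 k2 k3
  rw [rr_comm G k i, rr_comm G k j] at k2
  rw [rr_comm G j i, rr_comm G k i] at k3
  omega

/-- **Numbers**: if no side can be kept then every 3-separation has two sides of density two,
no edges between the roots and no root apices. -/
theorem Sep3.world [Finite V] (s : Sep3 G U A B i j k) (h : CB G U)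
    (hK : ∀ (A B : Set V) (i j k : V), ¬ Keep G U A B i j k) :
    fden G A = 2 ∧ fden G B = 2 ∧ (¬ G.Adj i j ∧ ¬ G.Adj i k ∧ ¬ G.Adj j k) ∧
      (¬ RApex G A i ∧ ¬ RApex G A j ∧ ¬ RApex G A k) ∧
      (¬ RApex G B i ∧ ¬ RApex G B j ∧ ¬ RApex G B k) := by
  have a1 : ¬ RApex G A i := fun hh => s.num_apex h hK hh
  have a2 : ¬ RApex G A j := fun hh => s.rot.num_apex h hK hh
  have a3 : ¬ RApex G A k := fun hh => s.rot.rot.num_apex h hK hh
  have b1 : ¬ RApex G B i := fun hh => s.flip.num_apex h hK hh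
  have b2 : ¬ RApex G B j := fun hh => s.flip.rot.num_apex h hK hh
  have b3 : ¬ RApex G B k := fun hh => s.flip.rot.rot.num_apex h hK hh
  have ht := s.total h.edge_mem h.dens
  have k1 : ¬ (3 ≤ fden G A + eL G i j k - rr G i j) := fun hh =>
    hK A B i j k ⟨s, b3, a1, a2, hh⟩
  have k2 : ¬ (3 ≤ fden G A + eL G k i j - rr G k i) := fun hh =>
    hK A B k i j ⟨s.rot.rot, b2, a3, a1, hh⟩
  have k3 : ¬ (3 ≤ fden G A + eL G j k i - rr G j k) := fun hh =>
    hK A B j k i ⟨s.rot, b1, a2, a3, hh⟩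
  have k4 : ¬ (3 ≤ fden G B + eL G i j k - rr G i j) := fun hh =>
    hK B A i j k ⟨s.flip, a3, b1, b2, hh⟩
  have k5 : ¬ (3 ≤ fden G B + eL G k i j - rr G k i) := fun hh =>
    hK B A k i j ⟨s.flip.rot.rot, a2, b3, b1, hh⟩
  have k6 : ¬ (3 ≤ fden G B + eL G j k i - rr G j k) := fun hh =>
    hK B A j k i ⟨s.flip.rot, a1, b2, b3, hh⟩
  have r1 := rr_cases G i j
  have r2 := rr_cases G i k
  have r3 := rr_cases G j k
  unfold eL at ht k1 k2 k3 k4 k5 k6
  rw [rr_comm G k i, rr_comm G k j] at k2 k5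
  rw [rr_comm G j i, rr_comm G k i] at k3 k6
  have e1 : rr G i j = 0 := by omega
  have e2 : rr G i k = 0 := by omega
  have e3 : rr G j k = 0 := by omega
  exact ⟨by omega, by omega, ⟨rr_zero e1, rr_zero e2, rr_zero e3⟩, ⟨a1, a2, a3⟩, ⟨b1, b2, b3⟩⟩

end

/-- A minimal counterexample has bipartite index at least three. -/
lemma ind3_of [Finite V] {G : SimpleGraph V} {U : Set V} (h : Ex3 G (fun _ => 1) U)
    (hno : ¬ HasTOK4s G (fun _ => 1)) (z1 z2 : V) (κ : V → ZMod 2) :
    ¬ ∀ u v, u ∉ ({z1, z2} : Set V) → v ∉ ({z1, z2} : Set V) → G.Adj u v → κ u ≠ κ v := by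
  intro hκ
  apply hno
  rw [← hasTOK4_iff]
  refine h.index_two (z1 := z1) (z2 := z2) (κ := κ) ?_ (fun md Z κ S T hS =>
    theorem_goal md Z κ S T hS)
  intro u v hu hv huv
  exact (add_eq_one_iff.2 (hκ u v hu hv huv)).symm

/-- The base facts for a minimal counterexample. -/
lemma CB.of_gmin [Finite V] {G : SimpleGraph V} {U : Set V} (hM : GMin G U)
    (hdeg : ∀ y ∈ U, 3 ≤ (G.neighborSet y).ncard)
    (hP1 : ∀ Y ⊆ U, 2 ≤ Y.ncard → ∀ κ, Bal G κ Y → 4 ≤ (Nb G Y).ncard) : CB G U where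
  edge_mem := hM.ex.edge_mem
  deg3 := hdeg
  conn := hM.ex.conn
  dens := by
    have h1 := hM.ex.dens
    rwa [odG_one] at h1
  P1 := hP1
  ind3 := ind3_of hM.ex hM.bad
  noT := hM.bad

end Pool.Agent.Helper75.SEP
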