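import Pool.Agent.Helper75.SEP.Ties2
import Pool.Agent.Helper97.PH.P2p
import Pool.Agent.Helper1.PHI.Defs

/-!
# One side is replaced by a flexible link (Lemma M)

`A` is kept, `B` is replaced by the flexible link `phE i j m` (`m` in `B`). If the new graph is
3-connected in the sense of `Ex3` and the third root has two neighbours, then it is in the class.
-/

set_option autoImplicit false

namespace Pool.Agent.Helper75.SEP

open SimpleGraph Pool.Agent.Helper57.TOK Pool.Agent.Helper57.TD Pool.Agent.Helper82.TK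
  Pool.Agent.Helper51.GX Pool.Agent.Helper75.GX Pool.Agent.Helper57.TOP Pool.Agent.Helper73.C3
  Pool.Agent.Helper1.SEP Pool.Agent.Helper1.GL Pool.Agent.Helper97.PH Pool.Agent.Helper1.PHI

variable {V : Type*}

/-- The situation: `G` as in `CB`, a separation, `m` in `B`. -/
structure Ph (G : SimpleGraph V) (U A B : Set V) (i j k m : V) : Prop extends
    Sep3 G U A B i j k where
  cb : CB G U
  mB : m ∈ B

section

variable {G : SimpleGraph V} {U A B : Set V} {i j k m : V}

lemma phiG_swap : phiG G A j i k m = phiG G A i j k m := by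
  unfold phiG phE
  have e1 : (A ∪ {j, i, k} : Set V) = A ∪ {i, j, k} := by rw [Set.insert_comm]
  have e2 : ({s(j, i), s(m, j), s(m, i)} : Set (Sym2 V)) = {s(i, j), s(m, i), s(m, j)} := by
    rw [Sym2.eq_swap (a := j) (b := i), Set.pair_comm]
  rw [e1, e2]

lemma phiU_swap : phiU A j i k m = phiU A i j k m := by
  unfold phiU
  rw [Set.insert_comm j i]

lemma Ph.swap (h : Ph G U A B i j k m) : Ph G U A B j i k m where
  toSep3 := h.toSep3.swap
  cb := h.cb
  mB := h.mB

lemma Ph.mA (h : Ph G U A B i j k m) : m ∉ A := fun hh => Set.disjoint_left.1 h.disj hh h.mB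

lemma Ph.mi (h : Ph G U A B i j k m) : m ≠ i := fun hh =>
  h.toSep3.notB (Or.inl rfl) (hh ▸ h.mB)

lemma Ph.mj (h : Ph G U A B i j k m) : m ≠ j := fun hh =>
  h.toSep3.notB (Or.inr (Or.inl rfl)) (hh ▸ h.mB)

lemma Ph.mk' (h : Ph G U A B i j k m) : m ≠ k := fun hh =>
  h.toSep3.notB (Or.inr (Or.inr rfl)) (hh ▸ h.mB)

lemma Ph.iA (h : Ph G U A B i j k m) : i ∉ A := h.toSep3.notA (Or.inl rfl)

lemma Ph.jA (h : Ph G U A B i j k m) : j ∉ A := h.toSep3.notA (Or.inr (Or.inl rfl))

lemma Ph.kA (h : Ph G U A B i j k m) : k ∉ A := h.toSep3.notA (Or.inr (Or.inr rfl))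

lemma Ph.mS (h : Ph G U A B i j k m) : m ∉ A ∪ {i, j, k} := by
  rintro (h1 | h1 | h1 | h1)
  · exact h.mA h1
  · exact h.mi h1
  · exact h.mj h1
  · exact h.mk' h1

lemma Ph.nb (h : Ph G U A B i j k m) {u v : V} (hu : u ∈ A) (huv : G.Adj u v) :
    v ∈ A ∪ ({i, j, k} : Set V) := by
  rcases h.toSep3.nbA hu huv with h1 | h1
  · exact Or.inl h1
  · exact Or.inr h1

lemma Ph.not_m (h : Ph G U A B i j k m) {u : V} (hu : u ∈ A) : ¬ G.Adj u m := by
  intro huv
  exact h.mS (h.nb hu huv)

/-! ### adjacency -/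

lemma phiG_adj {u v : V} : (phiG G A i j k m).Adj u v ↔
    (G.Adj u v ∧ u ∈ A ∪ {i, j, k} ∧ v ∈ A ∪ {i, j, k}) ∨
      (s(u, v) ∈ ({s(i, j), s(m, i), s(m, j)} : Set (Sym2 V)) ∧ u ≠ v) := by
  unfold phiG phE
  rw [SimpleGraph.sup_adj, SimpleGraph.fromEdgeSet_adj]
  rfl

lemma phiG_special {u v : V} (h : s(u, v) ∈ ({s(i, j), s(m, i), s(m, j)} : Set (Sym2 V))) :
    (u = i ∨ u = j ∨ u = m) ∧ (v = i ∨ v = j ∨ v = m) := by
  simp only [Set.mem_insert_iff, Set.mem_singleton_iff, Sym2.eq_iff] at h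
  tauto

lemma Ph.adjA (h : Ph G U A B i j k m) {u v : V} (hu : u ∈ A) :
    (phiG G A i j k m).Adj u v ↔ G.Adj u v := by
  rw [phiG_adj]
  constructor
  · rintro (h1 | h1)
    · exact h1.1
    · rcases (phiG_special h1.1).1 with h2 | h2 | h2
      · exact absurd (h2 ▸ hu) h.iA
      · exact absurd (h2 ▸ hu) h.jA
      · exact absurd (h2 ▸ hu) h.mA
  · exact fun h1 => Or.inl ⟨h1, Or.inl hu, h.nb hu h1⟩

lemma Ph.adjk (h : Ph G U A B i j k m) {v : V} :
    (phiG G A i j k m).Adj k v ↔ G.Adj k v ∧ v ∈ A ∪ {i, j, k} := by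
  rw [phiG_adj]
  constructor
  · rintro (h1 | h1)
    · exact ⟨h1.1, h1.2.2⟩
    · rcases (phiG_special h1.1).1 with h2 | h2 | h2
      · exact absurd h2.symm h.ik
      · exact absurd h2.symm h.jk
      · exact absurd h2.symm h.mk'
  · exact fun h1 => Or.inl ⟨h1.1, Or.inr (Or.inr (Or.inr rfl)), h1.2⟩

lemma Ph.adjm (h : Ph G U A B i j k m) {v : V} :
    (phiG G A i j k m).Adj m v ↔ v = i ∨ v = j := by
  rw [phiG_adj]
  constructor
  · rintro (h1 | ⟨h1, h2⟩)
    · exact absurd h1.2.1 h.mS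
    · have a1 := h.mi
      have a2 := h.mj
      simp only [Set.mem_insert_iff, Set.mem_singleton_iff, Sym2.eq_iff] at h1
      tauto
  · rintro (rfl | rfl)
    · exact Or.inr ⟨by simp, h.mi⟩
    · exact Or.inr ⟨by simp, h.mj⟩

lemma Ph.ij' (h : Ph G U A B i j k m) : (phiG G A i j k m).Adj i j :=
  phiG_adj.2 (Or.inr ⟨by simp, h.ij⟩)

lemma Ph.mi' (h : Ph G U A B i j k m) : (phiG G A i j k m).Adj m i := h.adjm.2 (Or.inl rfl)

lemma Ph.mj' (h : Ph G U A B i j k m) : (phiG G A i j k m).Adj m j := h.adjm.2 (Or.inr rfl)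

lemma mem_phiU {v : V} : v ∈ phiU A i j k m ↔ v = m ∨ v ∈ A ∨ v = i ∨ v = j ∨ v = k := by
  unfold phiU
  simp only [Set.mem_union, Set.mem_insert_iff, Set.mem_singleton_iff]
  tauto

lemma phiG_mem {u v : V} (huv : (phiG G A i j k m).Adj u v) : u ∈ phiU A i j k m := by
  rw [mem_phiU]
  rcases phiG_adj.1 huv with h1 | h1
  · exact Or.inr h1.2.1
  · rcases (phiG_special h1.1).1 with h2 | h2 | h2
    · exact Or.inr (Or.inr (Or.inl h2))
    · exact Or.inr (Or.inr (Or.inr (Or.inl h2)))
    · exact Or.inl h2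

lemma phiG_of {u v : V} (huv : G.Adj u v) (hu : u ∈ A ∪ ({i, j, k} : Set V))
    (hv : v ∈ A ∪ ({i, j, k} : Set V)) : (phiG G A i j k m).Adj u v :=
  phiG_adj.2 (Or.inl ⟨huv, hu, hv⟩)

/-! ### subsets of `A` -/

/-- a subset of `A` with at most two neighbours is empty -/
lemma Sep3.small [Finite V] (s : Sep3 G U A B i j k) (h : CB G U) {P Q : Set V} (hP : P ⊆ A)
    (hPQ : ∀ u ∈ P, ∀ v, G.Adj u v → v ∈ P ∨ v ∈ Q) (hQ : Q.ncard ≤ 2) : P = ∅ := by
  classical
  by_contra hne
  rw [← ne_eq, ← Set.nonempty_iff_ne_empty] at hne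
  obtain ⟨y, hy⟩ := hne
  have hN : Nb G P ⊆ Q := by
    rintro v ⟨hv, u, hu, huv⟩
    rcases hPQ u hu v huv with h1 | h1
    · exact absurd h1 hv
    · exact h1
  have hN2 : (Nb G P).ncard ≤ 2 := (Set.ncard_le_ncard hN (Set.toFinite _)).trans hQ
  by_cases h2 : 2 ≤ P.ncard
  · have h3 := h.conn P (hP.trans s.AU) h2 hN2
    have h4 : B ⊆ U \ (P ∪ Nb G P) := by
      intro v hv
      refine ⟨s.BU hv, ?_⟩
      rintro (h5 | ⟨-, u, hu, huv⟩)
      · exact Set.disjoint_left.1 s.disj (hP h5) hv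
      · rcases s.nbA (hP hu) huv with h6 | h6
        · exact Set.disjoint_left.1 s.disj h6 hv
        · exact s.notB h6 hv
    have h5 := Set.ncard_le_ncard h4 (Set.toFinite _)
    have h6 := s.B2
    omega
  · have h3 : G.neighborSet y ⊆ Nb G P := by
      intro v hv
      refine ⟨?_, y, hy, hv⟩
      intro hvP
      have hne : y ≠ v := SimpleGraph.Adj.ne hv
      exact h2 (two_le_ncard_of hy hvP hne)
    have h4 := Set.ncard_le_ncard h3 (Set.toFinite _)
    have h5 := h.deg3 y (s.AU (hP hy))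
    omega

/-- a balanced subset of `A` with at most three neighbours has at most one vertex -/
lemma Sep3.bal_one [Finite V] (s : Sep3 G U A B i j k) (h : CB G U) {P Q : Set V} (hP : P ⊆ A)
    {κ : V → ZMod 2} (hb : ∀ u v, u ∈ P → G.Adj u v → κ u ≠ κ v)
    (hPQ : ∀ u ∈ P, ∀ v, G.Adj u v → v ∈ P ∨ v ∈ Q) (hQ : Q.ncard ≤ 3) : P.ncard ≤ 1 := by
  by_contra hcon
  have hN : Nb G P ⊆ Q := by
    rintro v ⟨hv, u, hu, huv⟩
    rcases hPQ u hu v huv with h1 | h1
    · exact absurd h1 hv
    · exact h1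
  have h1 := (Set.ncard_le_ncard hN (Set.toFinite _)).trans hQ
  have h2 := h.P1 P (hP.trans s.AU) (by omega) κ (fun u v hu huv => hb u v hu huv)
  omega

/-- the neighbours of a vertex whose neighbours lie in a set of three vertices -/
lemma CB.all3 [Finite V] (h : CB G U) {y a b d : V} (hy : y ∈ U)
    (hN : ∀ v, G.Adj y v → v = a ∨ v = b ∨ v = d) : G.Adj y a ∧ G.Adj y b ∧ G.Adj y d := by
  have h1 : G.neighborSet y ⊆ {a, b, d} := fun v hv => hN v hv
  have h2 := h.deg3 y hy
  have h3 := ncard_triple_le a b d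
  have h4 : G.neighborSet y = {a, b, d} :=
    Set.eq_of_subset_of_ncard_le h1 (by omega) (Set.toFinite _)
  have h5 : ∀ v, v ∈ ({a, b, d} : Set V) → G.Adj y v := by
    intro v hv
    rw [← h4] at hv
    exact hv
  exact ⟨h5 a (by simp), h5 b (by simp), h5 d (by simp)⟩

lemma CB.w3 (h : CB G U) : W3 G (One V) U where
  edge_mem := h.edge_mem
  deg2 := fun y hy => (by norm_num : 2 ≤ 3).trans (h.deg3 y hy)
  conn := h.conn
  idx := by
    intro z κ hb
    refine h.ind3 z z κ ?_
    intro u v hu hv huv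
    rw [Set.pair_eq_singleton] at hu hv
    exact add_eq_one_iff.1 (hb u v hu hv huv).symm

/-! ### degree, density, index -/

lemma Ph.deg2 [Finite V] (h : Ph G U A B i j k m)
    (hk : 2 ≤ ((phiG G A i j k m).neighborSet k).ncard) :
    ∀ y ∈ phiU A i j k m, 2 ≤ ((phiG G A i j k m).neighborSet y).ncard := by
  classical
  intro y hy
  rcases mem_phiU.1 hy with rfl | hy | rfl | rfl | rfl
  · exact two_le_ncard_of (a := i) (b := j) h.mi' h.mj' h.ij
  · have e : (phiG G A i j k m).neighborSet y = G.neighborSet y := by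
      ext v; exact h.adjA hy
    rw [e]
    have := h.cb.deg3 y (h.AU hy)
    omega
  · exact two_le_ncard_of (a := j) (b := m) h.ij' h.mi'.symm h.mj.symm
  · exact two_le_ncard_of (a := i) (b := m) h.ij'.symm h.mj'.symm h.mi.symm
  · exact hk

lemma Ph.card [Finite V] (h : Ph G U A B i j k m) : (phiU A i j k m).ncard = A.ncard + 4 := by
  classical
  unfold phiU
  rw [Set.union_singleton, Set.ncard_insert_of_notMem h.mS (Set.toFinite _),
    Set.ncard_union_eq _ (Set.toFinite _)
    (Set.toFinite _), Set.ncard_eq_three.2 ⟨i, j, k, h.ij, h.ik, h.jk, rfl⟩]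
  rw [Set.disjoint_left]
  intro v hv hv'
  exact h.toSep3.notA hv' hv

lemma Ph.card_lt [Finite V] (h : Ph G U A B i j k m) : (phiU A i j k m).ncard < U.ncard := by
  have h1 := h.card
  have h2 := h.toSep3.card h.cb.edge_mem
  have h3 := h.B2
  omega

lemma Ph.dens' [Finite V] (h : Ph G U A B i j k m)
    (hn : 3 ≤ fden G A + eL G i j k - rr G i j) :
    2 * (phiU A i j k m).ncard ≤ (odG (phiG G A i j k m) (fun _ => 1)).edgeSet.ncard + 2 := by
  classical
  rw [odG_one, h.card]
  set F : Set (Sym2 V) := {s(i, j), s(m, i), s(m, j)} with hF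
  have a1 := h.mi
  have a2 := h.mj
  have a3 := h.mk'
  have a4 := h.ij
  have a5 := h.ik
  have a6 := h.jk
  have hF3 : F.ncard = 3 := by
    rw [hF]
    refine Set.ncard_eq_three.2 ⟨_, _, _, ?_, ?_, ?_, rfl⟩
    · simp only [ne_eq, Sym2.eq_iff]; tauto
    · simp only [ne_eq, Sym2.eq_iff]; tauto
    · simp only [ne_eq, Sym2.eq_iff]; tauto
  -- the possible edge between `a` and `b`
  have hone : ∀ a b : V, rr G a b ≤ (({e | e = s(a, b) ∧ G.Adj a b} : Set (Sym2 V)).ncard : ℤ) := by
    intro a b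
    by_cases hab : G.Adj a b
    · have e : ({e | e = s(a, b) ∧ G.Adj a b} : Set (Sym2 V)) = {s(a, b)} := by
        ext e; simp [hab]
      rw [e, Set.ncard_singleton]
      unfold rr
      rw [if_pos hab]
      norm_num
    · unfold rr
      rw [if_neg hab]
      positivity
  set E1 : Set (Sym2 V) := {e | e = s(i, k) ∧ G.Adj i k} with hE1
  set E2 : Set (Sym2 V) := {e | e = s(j, k) ∧ G.Adj j k} with hE2
  have hsub : (EAt G A ∪ E1) ∪ (E2 ∪ F) ⊆ (phiG G A i j k m).edgeSet := by
    intro e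
    induction e using Sym2.ind with
    | _ u v =>
      rintro ((he | he) | (he | he))
      · rw [mem_EAt] at he
        rcases he.2 with h1 | h1
        · exact (h.adjA h1).2 he.1
        · exact ((h.adjA h1).2 he.1.symm).symm
      · obtain ⟨he, hadj⟩ := he
        rw [he]
        exact phiG_of hadj (Or.inr (Or.inl rfl)) (Or.inr (Or.inr (Or.inr rfl)))
      · obtain ⟨he, hadj⟩ := he
        rw [he]
        exact phiG_of hadj (Or.inr (Or.inr (Or.inl rfl))) (Or.inr (Or.inr (Or.inr rfl)))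
      · rcases he with he | he | he
        · rw [he]; exact h.ij'
        · rw [he]; exact h.mi'
        · rw [he]; exact h.mj'
  have hAno : ∀ u v, s(u, v) ∈ EAt G A → (u ∈ A ∨ v ∈ A) := fun u v he => (mem_EAt.1 he).2
  have d1 : Disjoint (EAt G A) E1 := by
    rw [Set.disjoint_left]
    rintro e he ⟨rfl, -⟩
    rcases hAno _ _ he with h1 | h1
    · exact h.iA h1
    · exact h.kA h1
  have d2 : Disjoint E2 F := by
    rw [Set.disjoint_left]
    rintro e ⟨rfl, -⟩ hF'
    rw [hF] at hF'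
    simp only [Set.mem_insert_iff, Set.mem_singleton_iff, Sym2.eq_iff] at hF'
    have b1 := a1.symm
    have b2 := a2.symm
    have b3 := a3.symm
    have b4 := a4.symm
    have b5 := a5.symm
    have b6 := a6.symm
    tauto
  have d3 : Disjoint (EAt G A ∪ E1) (E2 ∪ F) := by
    rw [Set.disjoint_left]
    intro e he he'
    have b1 := a1.symm
    have b2 := a2.symm
    have b3 := a3.symm
    have b4 := a4.symm
    have b5 := a5.symm
    have b6 := a6.symm
    rcases he with he | he
    · rcases he' with ⟨rfl, -⟩ | he'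
      · rcases hAno _ _ he with h1 | h1
        · exact h.jA h1
        · exact h.kA h1
      · rw [hF] at he'
        rcases he' with rfl | rfl | rfl
        · rcases hAno _ _ he with h1 | h1
          · exact h.iA h1
          · exact h.jA h1
        · rcases hAno _ _ he with h1 | h1
          · exact h.mA h1
          · exact h.iA h1
        · rcases hAno _ _ he with h1 | h1
          · exact h.mA h1
          · exact h.jA h1
    · obtain ⟨rfl, -⟩ := he
      rcases he' with ⟨he', -⟩ | he'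
      · simp only [Sym2.eq_iff] at he'
        tauto
      · rw [hF] at he'
        simp only [Set.mem_insert_iff, Set.mem_singleton_iff, Sym2.eq_iff] at he'
        tauto
  have h1 := Set.ncard_le_ncard hsub (Set.toFinite _)
  rw [Set.ncard_union_eq d3 (Set.toFinite _) (Set.toFinite _), Set.ncard_union_eq d1
    (Set.toFinite _) (Set.toFinite _), Set.ncard_union_eq d2 (Set.toFinite _) (Set.toFinite _),
    hF3] at h1
  have h2 := hone i k
  have h3 := hone j k
  have h4 : rho G A = (EAt G A).ncard := rfl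
  unfold fden eL at hn
  rw [← hE1] at h2
  rw [← hE2] at h3
  omega

lemma Ph.idx (h : Ph G U A B i j k m) (hK : Kp G U A B i j k) (w : V) (κ : V → ZMod 2) :
    ¬ BalOff (phiG G A i j k m) (fun _ => 1) {w} κ := by
  intro hb
  have hne : ∀ u v, u ≠ w → v ≠ w → (phiG G A i j k m).Adj u v → κ u ≠ κ v := by
    intro u v hu hv huv
    exact add_eq_one_iff.1 (hb u v hu hv huv).symm
  have hin : ∀ u v, u ≠ w → v ≠ w → u ∈ A ∪ ({i, j, k} : Set V) → v ∈ A ∪ ({i, j, k} : Set V) →
      G.Adj u v → κ u ≠ κ v := fun u v hu hv hu' hv' huv => hne u v hu hv (phiG_of huv hu' hv')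
  by_cases hwi : w = i
  · subst hwi
    refine hK.Ai ⟨κ, fun u v hu hv huv => hin u v ?_ ?_ ?_ ?_ huv⟩
    · rintro rfl
      rcases hu with h1 | h1 | h1
      · exact h.iA h1
      · exact h.ij h1
      · exact h.ik h1
    · rintro rfl
      rcases hv with h1 | h1 | h1
      · exact h.iA h1
      · exact h.ij h1
      · exact h.ik h1
    · rcases hu with h1 | h1
      · exact Or.inl h1
      · exact Or.inr (Or.inr h1)
    · rcases hv with h1 | h1
      · exact Or.inl h1
      · exact Or.inr (Or.inr h1)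
  by_cases hwj : w = j
  · subst hwj
    refine hK.Aj ⟨κ, fun u v hu hv huv => hin u v ?_ ?_ ?_ ?_ huv⟩
    · rintro rfl
      rcases hu with h1 | h1 | h1
      · exact h.jA h1
      · exact h.ij h1.symm
      · exact h.jk h1
    · rintro rfl
      rcases hv with h1 | h1 | h1
      · exact h.jA h1
      · exact h.ij h1.symm
      · exact h.jk h1
    · rcases hu with h1 | h1 | h1
      · exact Or.inl h1
      · exact Or.inr (Or.inl h1)
      · exact Or.inr (Or.inr (Or.inr h1))
    · rcases hv with h1 | h1 | h1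
      · exact Or.inl h1
      · exact Or.inr (Or.inl h1)
      · exact Or.inr (Or.inr (Or.inr h1))
  by_cases hwm : w = m
  · subst hwm
    have hbal : Bal G κ A := by
      intro u v hu huv
      refine hin u v ?_ ?_ (Or.inl hu) (h.nb hu huv) huv
      · rintro rfl; exact h.mA hu
      · rintro rfl; exact h.not_m hu huv
    have h1 := h.cb.P1 A h.AU h.A2 κ hbal
    rw [h.NA, Set.ncard_eq_three.2 ⟨i, j, k, h.ij, h.ik, h.jk, rfl⟩] at h1
    omega
  · exact z2_tri (hne m i (Ne.symm hwm) (Ne.symm hwi) h.mi')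
      (hne m j (Ne.symm hwm) (Ne.symm hwj) h.mj')
      (hne i j (Ne.symm hwi) (Ne.symm hwj) h.ij')

end

end Pool.Agent.Helper75.SEP
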