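import Pool.Agent.Helper75.SEP.Phi

/-!
# One side is replaced by a flexible link, part 2: balanced sets, the theorem
-/

set_option autoImplicit false

namespace Pool.Agent.Helper75.SEP

open SimpleGraph Pool.Agent.Helper57.TOK Pool.Agent.Helper57.TD Pool.Agent.Helper82.TK
  Pool.Agent.Helper51.GX Pool.Agent.Helper75.GX Pool.Agent.Helper57.TOP Pool.Agent.Helper73.C3
  Pool.Agent.Helper1.SEP Pool.Agent.Helper1.GL Pool.Agent.Helper97.PH Pool.Agent.Helper1.PHI

variable {V : Type*}

section

variable {G : SimpleGraph V} {U A B : Set V} {i j k m : V}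

/-- A set which contains `k` but not `i`, `j`, `m` is not dense (Lemma P2+). -/
lemma Ph.k_only [Finite V] (h : Ph G U A B i j k m) {Y T : Set V} {κ : V → ZMod 2}
    (hκ : ∀ u v, u ∈ Y → (phiG G A i j k m).Adj u v → κ u ≠ κ v)
    (hY : ∀ u ∈ Y, u ∈ A ∨ u = k) (hkY : k ∈ Y) (hT3 : T.ncard = 3)
    (hTS : T ⊆ A ∪ {i, j, k}) (hYT : ∀ t ∈ T, t ∉ Y)
    (hYN : ∀ u ∈ Y, ∀ v, (phiG G A i j k m).Adj u v → v ∈ Y ∨ v ∈ T)
    (hkn : ∃ v, (phiG G A i j k m).Adj k v) :
    fden (phiG G A i j k m) Y ≤ beta κ T := by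
  classical
  by_contra hcon
  push Not at hcon
  set Y0 : Set V := Y \ {k} with hY0
  have hYe : insert k Y0 = Y := by
    ext u
    simp only [hY0, Set.mem_insert_iff, Set.mem_sdiff, Set.mem_singleton_iff]
    constructor
    · rintro (h1 | h1)
      · rw [h1]; exact hkY
      · exact h1.1
    · intro h1
      by_cases h2 : u = k
      · exact Or.inl h2
      · exact Or.inr ⟨h1, h2⟩
  have hY0A : Y0 ⊆ A := by
    rintro u ⟨hu, huk⟩
    exact (hY u hu).resolve_right huk
  have hkT : k ∉ T := fun hh => hYT k hh hkY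
  have hSU : A ∪ ({i, j, k} : Set V) ⊆ U := by
    rintro u (h1 | h1)
    · exact h.AU h1
    · exact h.toSep3.rootU h.cb.edge_mem h1
  have hnb : ∀ u ∈ Y0, ∀ v, G.Adj u v → v ∈ Y0 ∨ v = k ∨ v ∈ T := by
    intro u hu v huv
    rcases hYN u hu.1 v ((h.adjA (hY0A hu)).2 huv) with h1 | h1
    · by_cases h2 : v = k
      · exact Or.inr (Or.inl h2)
      · exact Or.inl ⟨h1, h2⟩
    · exact Or.inr (Or.inr h1)
  have hone : ∀ a b : ZMod 2, a ≠ b → a + b = 1 := by decide
  have hpp : PP G U Y0 k T κ := by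
    refine ⟨h.cb.w3, hY0A.trans h.AU, h.toSep3.rootU h.cb.edge_mem (Or.inr (Or.inr rfl)),
      hTS.trans hSU, hT3, fun hh => hh.2 rfl, hkT, fun t ht hh => hYT t ht hh.1, hnb, ?_, ?_, ?_,
      ?_, ?_⟩
    · intro u v hu huv
      exact (hone _ _ (hκ u v hu.1 ((h.adjA (hY0A hu)).2 huv))).symm
    · intro t ht hkt
      exact hone _ _ (hκ k t hkY (h.adjk.2 ⟨hkt, hTS ht⟩))
    · obtain ⟨v, hv⟩ := hkn
      refine ⟨v, (h.adjk.1 hv).1, ?_⟩
      rcases hYN k hkY v hv with h1 | h1
      · exact Or.inl ⟨h1, fun hh => hv.ne' hh⟩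
      · exact Or.inr h1
    · intro Y' hY' hY2 hY3 _
      exfalso
      have := h.cb.P1 Y' ((hY'.trans hY0A).trans h.AU) hY2 κ (fun u v hu huv =>
        hκ u v (hY' hu).1 ((h.adjA (hY0A (hY' hu))).2 huv))
      omega
    · rw [hYe]
      have hsub : EAt (phiG G A i j k m) Y ⊆ EAt (oddG (lG G Y0 k T) κ) Y := by
        have key : ∀ u v, u ∈ Y → (phiG G A i j k m).Adj u v →
            (oddG (lG G Y0 k T) κ).Adj u v := by
          intro u v hu huv
          refine ⟨?_, hone _ _ (hκ u v hu huv)⟩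
          by_cases huk : u = k
          · subst huk
            have h1 := (h.adjk.1 huv).1
            rcases hYN u hu v huv with h2 | h2
            · exact ⟨h1, Or.inr (Or.inl ⟨h2, fun hh => h1.ne' hh⟩)⟩
            · exact ⟨h1, Or.inr (Or.inr (Or.inl ⟨rfl, h2⟩))⟩
          · have hu0 : u ∈ Y0 := ⟨hu, huk⟩
            exact ⟨(h.adjA (hY0A hu0)).1 huv, Or.inl hu0⟩
        intro e
        induction e using Sym2.ind with
        | _ u v =>
          intro he
          rw [mem_EAt] at he ⊢
          rcases he.2 with h1 | h1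
          · exact ⟨key u v h1 he.1, he.2⟩
          · exact ⟨(key v u h1 he.1.symm).symm, he.2⟩
      have h1 := Set.ncard_le_ncard hsub (Set.toFinite _)
      have h2 : fden (phiG G A i j k m) Y ≤ fO (lG G Y0 k T) κ Y := by
        unfold fO fden rho
        omega
      omega
  rcases hpp.main with h1 | ⟨Y', κ', h1, h2, h3, h4⟩
  · exact h.cb.noT h1
  · have := h.cb.P1 Y' h1 h2 κ' (fun u v hu huv => bal_ne h3 hu huv)
    omega

/-- A balanced set does not contain `i`. -/
lemma Ph.not_i [Finite V] (h : Ph G U A B i j k m) {Y N : Set V} {κ : V → ZMod 2}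
    (hκ : ∀ u v, u ∈ Y → (phiG G A i j k m).Adj u v → κ u ≠ κ v)
    (hY : Y ⊆ phiU A i j k m) (hY2 : 2 ≤ Y.ncard) (hN3 : N.ncard = 3)
    (hYN : ∀ u ∈ Y, ∀ v, (phiG G A i j k m).Adj u v → v ∈ Y ∨ v ∈ N)
    (hZ : (phiU A i j k m \ (Y ∪ N)).Nonempty) : i ∉ Y := by
  classical
  intro hiY
  have k1 := hκ i j hiY h.ij'
  have k2 := hκ i m hiY h.mi'.symm
  have hjY : j ∉ Y := fun hh => z2_tri k1 k2 (hκ j m hh h.mj'.symm)
  have hmY : m ∉ Y := fun hh => z2_tri k2 k1 (hκ m j hh h.mj')
  have hjN : j ∈ N := (hYN i hiY j h.ij').resolve_left hjY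
  have hmN : m ∈ N := (hYN i hiY m h.mi'.symm).resolve_left hmY
  obtain ⟨a, hNe, haj, ham⟩ := three_of_two hN3 hjN hmN h.mj.symm
  by_cases hkY : k ∈ Y
  · -- the rest has two neighbours
    set Z := phiU A i j k m \ (Y ∪ N) with hZd
    have hZA : Z ⊆ A := by
      intro u hu
      rcases mem_phiU.1 hu.1 with h1 | h1 | h1 | h1 | h1
      · exact absurd (Or.inr (h1 ▸ hmN)) hu.2
      · exact h1
      · exact absurd (Or.inl (h1 ▸ hiY)) hu.2
      · exact absurd (Or.inr (h1 ▸ hjN)) hu.2
      · exact absurd (Or.inl (h1 ▸ hkY)) hu.2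
    have hZe : Z = ∅ := by
      refine h.toSep3.small h.cb (Q := {j, a}) hZA ?_ (ncard_pair_le' _ _)
      intro u hu v huv
      have huv' := (h.adjA (hZA hu)).2 huv
      by_cases hvN : v ∈ N
      · rw [hNe] at hvN
        rcases hvN with h1 | h1 | h1
        · exact Or.inr (Or.inl h1)
        · exact absurd (h1 ▸ huv) (h.not_m (hZA hu))
        · exact Or.inr (Or.inr h1)
      · left
        refine ⟨phiG_mem huv'.symm, ?_⟩
        rintro (h1 | h1)
        · rcases hYN v h1 u huv'.symm with h2 | h2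
          · exact hu.2 (Or.inl h2)
          · exact hu.2 (Or.inr h2)
        · exact hvN h1
    exact hZ.ne_empty hZe
  · -- the set without `i`
    have hYA : ∀ u ∈ Y, u ≠ i → u ∈ A := by
      intro u hu hui
      rcases mem_phiU.1 (hY hu) with h1 | h1 | h1 | h1 | h1
      · exact absurd (h1 ▸ hu) hmY
      · exact h1
      · exact absurd h1 hui
      · exact absurd (h1 ▸ hu) hjY
      · exact absurd (h1 ▸ hu) hkY
    have hX : Y \ {i} ⊆ A := fun u hu => hYA u hu.1 hu.2
    have hXn : ∀ u ∈ Y \ {i}, ∀ v, G.Adj u v → v ∈ Y \ {i} ∨ v ∈ ({i, j, a} : Set V) := by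
      intro u hu v huv
      by_cases hvi : v = i
      · exact Or.inr (Or.inl hvi)
      rcases hYN u hu.1 v ((h.adjA (hX hu)).2 huv) with h1 | h1
      · exact Or.inl ⟨h1, hvi⟩
      · rw [hNe] at h1
        rcases h1 with h1 | h1 | h1
        · exact Or.inr (Or.inr (Or.inl h1))
        · exact absurd (h1 ▸ huv) (h.not_m (hX hu))
        · exact Or.inr (Or.inr (Or.inr h1))
    have hX1 : (Y \ {i}).ncard ≤ 1 := h.toSep3.bal_one h.cb hX (κ := κ)
      (fun u v hu huv => hκ u v hu.1 ((h.adjA (hX hu)).2 huv)) hXn (ncard_triple_le _ _ _)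
    obtain ⟨y, hy, hyi⟩ : ∃ y ∈ Y, y ≠ i := by
      by_contra hcon
      push Not at hcon
      have h1 : Y ⊆ {i} := fun v hv => hcon v hv
      have h2 := Set.ncard_le_ncard h1 (Set.toFinite _)
      rw [Set.ncard_singleton] at h2
      omega
    have hyA := hYA y hy hyi
    have hya := h.cb.all3 (a := i) (b := j) (d := a) (h.AU hyA) (by
      intro v hv
      rcases hXn y ⟨hy, hyi⟩ v hv with h1 | h1
      · exact absurd (eq_of_ncard_le_one hX1 h1 ⟨hy, hyi⟩) hv.ne'
      · exact h1)
    have e1 := hκ y i hy ((h.adjA hyA).2 hya.1)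
    have e2 := hκ y j hy ((h.adjA hyA).2 hya.2.1)
    exact k1 (z2_two e1 e2)

/-- edges at a set with the handle -/
lemma Ph.fden_m [Finite V] (h : Ph G U A B i j k m) {Y : Set V} (hm : m ∈ Y) (hi : i ∉ Y)
    (hj : j ∉ Y) : fden (phiG G A i j k m) Y ≤ fden (phiG G A i j k m) (Y \ {m}) := by
  classical
  have hsub : EAt (phiG G A i j k m) Y ⊆ EAt (phiG G A i j k m) (Y \ {m}) ∪ {s(m, i), s(m, j)} := by
    have key : ∀ u v, u ∈ Y → (phiG G A i j k m).Adj u v →
        s(u, v) ∈ EAt (phiG G A i j k m) (Y \ {m}) ∪ {s(m, i), s(m, j)} := by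
      intro u v hu huv
      by_cases hum : u = m
      · subst hum
        rcases h.adjm.1 huv with rfl | rfl
        · exact Or.inr (Or.inl rfl)
        · exact Or.inr (Or.inr rfl)
      · exact Or.inl (mem_EAt.2 ⟨huv, Or.inl ⟨hu, hum⟩⟩)
    intro e
    induction e using Sym2.ind with
    | _ u v =>
      intro he
      rw [mem_EAt] at he
      rcases he.2 with h1 | h1
      · exact key u v h1 he.1
      · have h2 := key v u h1 he.1.symm
        rwa [Sym2.eq_swap (a := v) (b := u)] at h2
  have h1 := Set.ncard_le_ncard hsub (Set.toFinite _)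
  have h2 := Set.ncard_union_le (EAt (phiG G A i j k m) (Y \ {m})) {s(m, i), s(m, j)}
  have h3 := ncard_pair_le' s(m, i) s(m, j)
  have h4 := Set.ncard_sdiff_singleton_of_mem hm
  have h5 : 0 < Y.ncard := (Set.ncard_pos (Set.toFinite _)).2 ⟨m, hm⟩
  have r1 : rho (phiG G A i j k m) Y = (EAt (phiG G A i j k m) Y).ncard := rfl
  have r2 : rho (phiG G A i j k m) (Y \ {m}) =
    (EAt (phiG G A i j k m) (Y \ {m})).ncard := rfl
  unfold fden
  omega

lemma beta_mono3 [Finite V] {N : Set V} (hN : N.ncard = 3) {κ : V → ZMod 2} (hm : Mono κ N) :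
    beta κ N = 1 := by
  unfold beta
  rw [hN, if_pos hm]
  norm_num

/-- Balanced sets with three neighbours and a nonempty rest are not dense. -/
theorem Ph.sparse [Finite V] (h : Ph G U A B i j k m)
    (hc : ConnP (phiG G A i j k m) (phiU A i j k m))
    (hk2 : ∃ v, (phiG G A i j k m).Adj k v) {Y : Set V}
    (hY : Y ⊆ phiU A i j k m) (hY2 : 2 ≤ Y.ncard)
    (hN3 : (Nb (phiG G A i j k m) Y).ncard = 3)
    (hZ : (phiU A i j k m \ (Y ∪ Nb (phiG G A i j k m) Y)).Nonempty)
    (κ : V → ZMod 2) (hb : BalOn (phiG G A i j k m) (fun _ => 1) Y κ) :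
    fden (phiG G A i j k m) Y ≤ beta κ (Nb (phiG G A i j k m) Y) := by
  classical
  set P := phiG G A i j k m with hP
  set N := Nb P Y with hNd
  have hκ : ∀ u v, u ∈ Y → P.Adj u v → κ u ≠ κ v := fun u v hu huv => bal_ne hb hu huv
  have hYN : ∀ u ∈ Y, ∀ v, P.Adj u v → v ∈ Y ∨ v ∈ N := fun u hu v huv => mem_or_Nb1 hu huv
  have hYNd : ∀ v, v ∈ N → v ∉ Y := fun v hv => hv.1
  have hiY : i ∉ Y := h.not_i hκ hY hY2 hN3 hYN hZ
  have hjY : j ∉ Y := by
    refine h.swap.not_i (N := N) (κ := κ) ?_ ?_ hY2 hN3 ?_ ?_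
    · rw [phiG_swap]; exact hκ
    · rw [phiU_swap]; exact hY
    · rw [phiG_swap]; exact hYN
    · rw [phiU_swap]; exact hZ
  by_cases hmY : m ∈ Y
  · have hiN : i ∈ N := (hYN m hmY i h.mi').resolve_left hiY
    have hjN : j ∈ N := (hYN m hmY j h.mj').resolve_left hjY
    obtain ⟨a, hNe, hai, haj⟩ := three_of_two hN3 hiN hjN h.ij
    have hkm1 := hκ m i hmY h.mi'
    have hkm2 := hκ m j hmY h.mj'
    have hij : κ i = κ j := z2_two hkm1 hkm2
    have hfm := h.fden_m hmY hiY hjY
    rw [← hP] at hfm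
    have hYA : ∀ u ∈ Y \ {m}, u ∈ A ∨ u = k := by
      rintro u ⟨hu, hum⟩
      rcases mem_phiU.1 (hY hu) with h1 | h1 | h1 | h1 | h1
      · exact absurd h1 hum
      · exact Or.inl h1
      · exact absurd (h1 ▸ hu) hiY
      · exact absurd (h1 ▸ hu) hjY
      · exact Or.inr h1
    -- neighbours of the set without the handle
    have hYN' : ∀ u ∈ Y \ {m}, ∀ v, P.Adj u v → v ∈ Y \ {m} ∨ v ∈ N := by
      rintro u ⟨hu, hum⟩ v huv
      rcases hYN u hu v huv with h1 | h1
      · left
        refine ⟨h1, ?_⟩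
        rintro rfl
        rcases h.adjm.1 huv.symm with h2 | h2
        · exact hiY (h2 ▸ hu)
        · exact hjY (h2 ▸ hu)
      · exact Or.inr h1
    by_cases hkY : k ∈ Y
    · have hkY' : k ∈ Y \ {m} := ⟨hkY, fun hh => h.mk' hh.symm⟩
      have hN1 : Nb P (Y \ {m}) ⊆ N := by
        rintro v ⟨hv, u, hu, huv⟩
        rcases hYN' u hu v huv with h1 | h1
        · exact absurd h1 hv
        · exact h1
      by_cases hN13 : (Nb P (Y \ {m})).ncard = 3
      · have hNN : Nb P (Y \ {m}) = N :=
          Set.eq_of_subset_of_ncard_le hN1 (by omega) (Set.toFinite _)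
        refine hfm.trans (h.k_only (fun u v hu huv => hκ u v hu.1 huv) hYA hkY' hN3 ?_ ?_ hYN'
          hk2)
        · intro v hv
          rcases mem_phiU.1 (show v ∈ phiU A i j k m by
            obtain ⟨-, u, hu, huv⟩ := hv
            exact phiG_mem huv.symm) with h1 | h1
          · exact absurd (h1 ▸ hmY) (hYNd v hv)
          · exact h1
        · intro t ht hh
          exact hYNd t ht hh.1
      · have hN12 : (Nb P (Y \ {m})).ncard ≤ 2 := by
          have := Set.ncard_le_ncard hN1 (Set.toFinite _)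
          omega
        by_cases hY12 : 2 ≤ (Y \ {m}).ncard
        · exfalso
          have h1 := hc (Y \ {m}) (fun u hu => hY hu.1) hY12 hN12
          obtain ⟨z, hz⟩ := hZ
          have h2 := two_le_ncard_of (S := phiU A i j k m \ (Y \ {m} ∪ Nb P (Y \ {m})))
            (a := m) (b := z) ?_ ?_ ?_
          · omega
          · refine ⟨mem_phiU.2 (Or.inl rfl), ?_⟩
            rintro (h3 | h3)
            · exact h3.2 rfl
            · exact hYNd m (hN1 h3) hmY
          · refine ⟨hz.1, ?_⟩
            rintro (h3 | h3)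
            · exact hz.2 (Or.inl h3.1)
            · exact hz.2 (Or.inr (hN1 h3))
          · rintro rfl
            exact hz.2 (Or.inl hmY)
        · -- the set is `{m, k}`
          have hYk : Y \ {m} = {k} := by
            apply Set.Subset.antisymm
            · intro v hv
              exact eq_of_ncard_le_one (by omega) hv hkY'
            · rintro v rfl
              exact hkY'
          have hsub : EAt P (Y \ {m}) ⊆ (fun v => s(k, v)) '' (Nb P (Y \ {m})) := by
            intro e
            induction e using Sym2.ind with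
            | _ u v =>
              intro he
              rw [mem_EAt, hYk] at he
              rcases he with ⟨he, h1 | h1⟩
              · rw [Set.mem_singleton_iff] at h1
                subst h1
                refine ⟨v, ?_, rfl⟩
                rw [hYk]
                exact ⟨fun hh => he.ne' hh, u, rfl, he⟩
              · rw [Set.mem_singleton_iff] at h1
                subst h1
                refine ⟨u, ?_, Sym2.eq_swap⟩
                rw [hYk]
                exact ⟨fun hh => he.ne hh, v, rfl, he.symm⟩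
          have h1 := Set.ncard_le_ncard hsub (Set.toFinite _)
          have h2 := Set.ncard_image_le (f := fun v => s(k, v))
            (Set.toFinite (Nb P (Y \ {m})))
          have h3 : (Y \ {m}).ncard = 1 := by rw [hYk]; exact Set.ncard_singleton _
          have h4 : fden P (Y \ {m}) ≤ 0 := by
            unfold fden rho
            omega
          have h5 := beta_three_nonneg hN3 κ
          omega
    · -- one cubic vertex
      have hXA : Y \ {m} ⊆ A := by
        intro u hu
        rcases hYA u hu with h1 | h1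
        · exact h1
        · exact absurd (h1 ▸ hu.1) hkY
      have hX1 : (Y \ {m}).ncard ≤ 1 := h.toSep3.bal_one h.cb hXA (κ := κ) (Q := N)
        (fun u v hu huv => hκ u v hu.1 ((h.adjA (hXA hu)).2 huv))
        (fun u hu v huv => hYN' u hu v ((h.adjA (hXA hu)).2 huv)) (by omega)
      obtain ⟨y, hy, hym⟩ : ∃ y ∈ Y, y ≠ m := by
        by_contra hcon
        push Not at hcon
        have h1 : Y ⊆ {m} := fun v hv => hcon v hv
        have h2 := Set.ncard_le_ncard h1 (Set.toFinite _)
        rw [Set.ncard_singleton] at h2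
        omega
      have hyX : y ∈ Y \ {m} := ⟨hy, hym⟩
      have hyA : y ∈ A := hXA hyX
      have hynb : ∀ v, P.Adj y v → v = i ∨ v = j ∨ v = a := by
        intro v hv
        rcases hYN' y hyX v hv with h1 | h1
        · exact absurd (eq_of_ncard_le_one hX1 h1 hyX) hv.ne'
        · rw [hNe] at h1; exact h1
      have hya := h.cb.all3 (a := i) (b := j) (d := a) (h.AU hyA) (fun v hv =>
        hynb v ((h.adjA hyA).2 hv))
      have e1 := hκ y i hy ((h.adjA hyA).2 hya.1)
      have e2 := hκ y j hy ((h.adjA hyA).2 hya.2.1)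
      have e3 := hκ y a hy ((h.adjA hyA).2 hya.2.2)
      have hmono : Mono κ N := by
        have key : ∀ x ∈ N, κ x = κ i := by
          intro x hx
          rw [hNe] at hx
          rcases hx with rfl | rfl | rfl
          · rfl
          · exact z2_two e2 e1
          · exact z2_two e3 e1
        exact fun x hx x' hx' => (key x hx).trans (key x' hx').symm
      rw [beta_mono3 hN3 hmono]
      refine hfm.trans ?_
      have hYe : Y \ {m} = {y} := by
        apply Set.Subset.antisymm
        · intro v hv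
          exact eq_of_ncard_le_one hX1 hv hyX
        · rintro v rfl
          exact hyX
      have hsub : EAt P (Y \ {m}) ⊆ {s(y, i), s(y, j), s(y, a)} := by
        intro e
        induction e using Sym2.ind with
        | _ u v =>
          intro he
          rw [mem_EAt, hYe] at he
          rcases he with ⟨he, h1 | h1⟩
          · rw [Set.mem_singleton_iff] at h1
            subst h1
            rcases hynb v he with rfl | rfl | rfl <;> simp
          · rw [Set.mem_singleton_iff] at h1
            subst h1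
            rw [Sym2.eq_swap]
            rcases hynb u he.symm with rfl | rfl | rfl <;> simp
      have h1 := Set.ncard_le_ncard hsub (Set.toFinite _)
      have h2 := ncard_triple_le s(y, i) s(y, j) s(y, a)
      have h3 : (Y \ {m}).ncard = 1 := by rw [hYe]; exact Set.ncard_singleton _
      unfold fden rho
      omega
  · have hmN : m ∉ N := by
      rintro ⟨-, u, hu, hum⟩
      rcases h.adjm.1 hum.symm with h1 | h1
      · exact hiY (h1 ▸ hu)
      · exact hjY (h1 ▸ hu)
    have hYA : ∀ u ∈ Y, u ∈ A ∨ u = k := by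
      intro u hu
      rcases mem_phiU.1 (hY hu) with h1 | h1 | h1 | h1 | h1
      · exact absurd (h1 ▸ hu) hmY
      · exact Or.inl h1
      · exact absurd (h1 ▸ hu) hiY
      · exact absurd (h1 ▸ hu) hjY
      · exact Or.inr h1
    by_cases hkY : k ∈ Y
    · refine h.k_only hκ hYA hkY hN3 ?_ hYNd hYN hk2
      intro v hv
      rcases mem_phiU.1 (show v ∈ phiU A i j k m by
        obtain ⟨-, u, hu, huv⟩ := hv
        exact phiG_mem huv.symm) with h1 | h1
      · exact absurd (h1 ▸ hv) hmN
      · exact h1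
    · exfalso
      have hYA' : Y ⊆ A := by
        intro u hu
        rcases hYA u hu with h1 | h1
        · exact h1
        · exact absurd (h1 ▸ hu) hkY
      have h1 := h.toSep3.bal_one h.cb hYA' (κ := κ) (Q := N)
        (fun u v hu huv => hκ u v hu ((h.adjA (hYA' hu)).2 huv))
        (fun u hu v huv => hYN u hu v ((h.adjA (hYA' hu)).2 huv)) (by omega)
      omega

/-- **Lemma M**, membership. -/
theorem Ph.ex3 [Finite V] (h : Ph G U A B i j k m) (hK : Kp G U A B i j k)
    (hk : TwoOut G B k) (hc : ConnP (phiG G A i j k m) (phiU A i j k m)) :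
    Ex3 (phiG G A i j k m) (fun _ => 1) (phiU A i j k m) := by
  have hk' : 2 ≤ ((phiG G A i j k m).neighborSet k).ncard := by
    obtain ⟨x, y, hxy, hkx, hky, hx, hy⟩ := hk
    have hS : ∀ z, G.Adj k z → z ∉ B → z ∈ A ∪ ({i, j, k} : Set V) := by
      intro z hkz hz
      rcases h.cov z (h.cb.edge_mem z k hkz.symm) with h1 | h1 | h1
      · exact Or.inl h1
      · exact absurd h1 hz
      · exact Or.inr h1
    exact two_le_ncard_of (a := x) (b := y) (h.adjk.2 ⟨hkx, hS x hkx hx⟩)
      (h.adjk.2 ⟨hky, hS y hky hy⟩) hxy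
  refine ⟨fun u v huv => phiG_mem huv, h.deg2 hk', hc, h.dens' hK.num, h.idx hK, ?_⟩
  intro Y hY hY2 hN3 hZ κ hb
  rw [odG_one]
  refine h.sparse hc ?_ hY hY2 hN3 hZ κ hb
  obtain ⟨v, hv⟩ : ((phiG G A i j k m).neighborSet k).Nonempty := by
    rw [← Set.ncard_pos (Set.toFinite _)]; omega
  exact ⟨v, hv⟩

/-- The side `B` gives both links. -/
lemma Sep3.linkOut [Finite V] (s : Sep3 G U A B i j k) (h : CB G U) (hB : ¬ RApex G B k) :
    LinkOut G (A ∪ {i, j, k}) i j := by
  have hrB : (U \ (B ∪ Nb G B)).Nonempty := by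
    have hA2 := s.A2
    obtain ⟨b, hb⟩ : A.Nonempty := by
      rw [← Set.ncard_pos (Set.toFinite _)]; omega
    refine ⟨b, s.AU hb, ?_⟩
    rintro (h1 | h1)
    · exact Set.disjoint_left.1 s.disj hb h1
    · rw [s.NB] at h1; exact s.notA h1 hb
  intro t
  obtain ⟨Q, hQ, hQw, hQs, -⟩ := flex' (c := fun _ => 1) h.edge_mem h.conn s.BU s.NB s.ij
    s.ik s.jk hrB (fun κ' hκ' => hB ⟨κ', fun u v hu hv huv =>
      add_eq_one_iff.1 (hκ' u v hu hv huv).symm⟩) t
  refine ⟨Q, hQ, hQw, ?_⟩
  intro x hx hxS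
  obtain ⟨h1, h2⟩ := hQs x hx
  rcases h1 with h1 | h1
  · exfalso
    rcases hxS with h3 | h3
    · exact Set.disjoint_left.1 s.disj h3 h1
    · exact s.notB h3 h1
  · exact h1

/-- **Lemma M.** -/
theorem Kp.false_of_conn' [Finite V] (K : Kp G U A B i j k) (h : CI G U) (hm : m ∈ B)
    (hk : TwoOut G B k) (hc : ConnP (phiG G A i j k m) (phiU A i j k m)) : False := by
  have hp : Ph G U A B i j k m := ⟨K.toSep3, h.toCB, hm⟩
  have h1 : HasTOK4s (phiG G A i j k m) (One V) := h.IH _ _ (hp.ex3 K hk hc) hp.card_lt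
  refine h.noT ?_
  refine lift_in (S := A ∪ {i, j, k}) inG_le supp_inG (Or.inr (Or.inl rfl))
    (Or.inr (Or.inr (Or.inl rfl))) K.ij hp.mS (K.toSep3.linkOut h.toCB K.Bk) h1

end

end Pool.Agent.Helper75.SEP
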