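import Pool.Agent.Helper75.GX.Fold3
import Pool.Agent.Helper82.TK.FanTri
import Pool.Agent.Helper1.GL.Weak

/-!
# The tie beside a minimal nonbalanced three-side

`M` is an inclusion-minimal nonbalanced set with three neighbours `l1, l2, l3` (the roots), no root
is an apex of `M`. The graph on `M`, the roots and one more vertex `x` with the edges at `M`, the
edges `x l1, x l2, x l3` and `l1 l2` is in the class, or it has a TOK4.
-/

set_option autoImplicit false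

namespace Pool.Agent.Helper75.SEP

open SimpleGraph Pool.Agent.Helper57.TOK Pool.Agent.Helper57.TD Pool.Agent.Helper82.TK
  Pool.Agent.Helper51.GX Pool.Agent.Helper1.GL Pool.Agent.Helper75.GX

variable {V : Type*}

/-- An inclusion-minimal nonbalanced three-side without apex roots. -/
structure MSide (G : SimpleGraph V) (U M : Set V) (l1 l2 l3 : V) : Prop where
  edge_mem : ∀ u v, G.Adj u v → u ∈ U
  deg3 : ∀ y ∈ U, 3 ≤ (G.neighborSet y).ncard
  conn : ∀ Y ⊆ U, 2 ≤ Y.ncard → (Nb G Y).ncard ≤ 2 → (U \ (Y ∪ Nb G Y)).ncard ≤ 1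
  MU : M ⊆ U
  NM : Nb G M = {l1, l2, l3}
  l12 : l1 ≠ l2
  l13 : l1 ≠ l3
  l23 : l2 ≠ l3
  min : ∀ X ⊆ M, X ≠ M → 2 ≤ X.ncard → 4 ≤ (Nb G X).ncard
  dens : 2 ≤ fden G M
  noapex : ∀ l, (l = l1 ∨ l = l2 ∨ l = l3) → ∀ κ : V → ZMod 2,
    ¬ ∀ u v, u ∈ M → v ≠ l → G.Adj u v → κ u ≠ κ v
  rest : 2 ≤ (U \ (M ∪ {l1, l2, l3})).ncard

/-- A side with a spare vertex `x`. -/
structure Tie (G : SimpleGraph V) (U M : Set V) (x l1 l2 l3 : V) : Prop extends
    MSide G U M l1 l2 l3 where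
  xU : x ∈ U
  xM : x ∉ M
  x1 : x ≠ l1
  x2 : x ≠ l2
  x3 : x ≠ l3

/-- The tie graph. -/
def tieG (G : SimpleGraph V) (M : Set V) (x l1 l2 l3 : V) : SimpleGraph V :=
  restr G M ⊔ SimpleGraph.fromEdgeSet {s(x, l1), s(x, l2), s(x, l3), s(l1, l2)}

/-- Its vertex set. -/
def tieU (M : Set V) (x l1 l2 l3 : V) : Set V := M ∪ {x, l1, l2, l3}

lemma tieG_swap (G : SimpleGraph V) (M : Set V) (x l1 l2 l3 : V) :
    tieG G M x l2 l1 l3 = tieG G M x l1 l2 l3 := by
  unfold tieG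
  have e : ({s(x, l2), s(x, l1), s(x, l3), s(l2, l1)} : Set (Sym2 V)) =
      {s(x, l1), s(x, l2), s(x, l3), s(l1, l2)} := by
    rw [Set.insert_comm, Sym2.eq_swap (a := l2) (b := l1)]
  rw [e]

lemma tieU_swap (M : Set V) (x l1 l2 l3 : V) : tieU M x l2 l1 l3 = tieU M x l1 l2 l3 := by
  unfold tieU
  rw [Set.insert_comm l2 l1]

section

variable {G : SimpleGraph V} {U M : Set V} {x l1 l2 l3 : V}

lemma MSide.swap (h : MSide G U M l1 l2 l3) : MSide G U M l2 l1 l3 where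
  edge_mem := h.edge_mem
  deg3 := h.deg3
  conn := h.conn
  MU := h.MU
  NM := by rw [h.NM, Set.insert_comm]
  l12 := h.l12.symm
  l13 := h.l23
  l23 := h.l13
  min := h.min
  dens := h.dens
  noapex := fun l hl => h.noapex l (by tauto)
  rest := by rw [Set.insert_comm]; exact h.rest

lemma MSide.rot (h : MSide G U M l1 l2 l3) : MSide G U M l2 l3 l1 where
  edge_mem := h.edge_mem
  deg3 := h.deg3
  conn := h.conn
  MU := h.MU
  NM := by rw [h.NM]; ext z; simp only [Set.mem_insert_iff, Set.mem_singleton_iff]; tauto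
  l12 := h.l23
  l13 := h.l12.symm
  l23 := h.l13.symm
  min := h.min
  dens := h.dens
  noapex := fun l hl => h.noapex l (by tauto)
  rest := by
    have e : ({l2, l3, l1} : Set V) = {l1, l2, l3} := by
      ext z; simp only [Set.mem_insert_iff, Set.mem_singleton_iff]; tauto
    rw [e]; exact h.rest

lemma Tie.swap (h : Tie G U M x l1 l2 l3) : Tie G U M x l2 l1 l3 where
  toMSide := h.toMSide.swap
  xU := h.xU
  xM := h.xM
  x1 := h.x2
  x2 := h.x1
  x3 := h.x3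

lemma MSide.m1 (h : MSide G U M l1 l2 l3) : l1 ∉ M ∧ ∃ u ∈ M, G.Adj u l1 := by
  have h1 : l1 ∈ Nb G M := by rw [h.NM]; exact Or.inl rfl
  exact h1

lemma MSide.m2 (h : MSide G U M l1 l2 l3) : l2 ∉ M ∧ ∃ u ∈ M, G.Adj u l2 := h.swap.m1

lemma MSide.m3 (h : MSide G U M l1 l2 l3) : l3 ∉ M ∧ ∃ u ∈ M, G.Adj u l3 := h.rot.swap.m1

lemma MSide.u1 (h : MSide G U M l1 l2 l3) : l1 ∈ U := by
  obtain ⟨-, u, -, hu⟩ := h.m1
  exact h.edge_mem l1 u hu.symm

lemma MSide.u2 (h : MSide G U M l1 l2 l3) : l2 ∈ U := h.swap.u1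

lemma MSide.u3 (h : MSide G U M l1 l2 l3) : l3 ∈ U := h.rot.swap.u1

/-- neighbours of a vertex of `M` -/
lemma MSide.nbr (h : MSide G U M l1 l2 l3) {u v : V} (hu : u ∈ M) (huv : G.Adj u v) :
    v ∈ M ∨ v = l1 ∨ v = l2 ∨ v = l3 := by
  rcases mem_or_Nb1 hu huv with h1 | h1
  · exact Or.inl h1
  · rw [h.NM] at h1
    exact Or.inr h1

/-- `M` is not balanced -/
lemma MSide.nonbal (h : MSide G U M l1 l2 l3) (κ : V → ZMod 2)
    (hκ : ∀ u v, u ∈ M → G.Adj u v → κ u ≠ κ v) : False :=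
  h.noapex l1 (Or.inl rfl) κ (fun u v hu _ huv => hκ u v hu huv)

/-- A subset of `M` with at most two neighbours is empty. -/
lemma MSide.small [Finite V] (h : MSide G U M l1 l2 l3) {P Q : Set V} (hP : P ⊆ M)
    (hPQ : ∀ u ∈ P, ∀ v, G.Adj u v → v ∈ P ∨ v ∈ Q) (hQ : Q.ncard ≤ 2) : P = ∅ := by
  by_contra hne
  rw [← ne_eq, ← Set.nonempty_iff_ne_empty] at hne
  obtain ⟨y, hy⟩ := hne
  have hN : Nb G P ⊆ Q := by
    rintro v ⟨hv, u, hu, huv⟩
    rcases hPQ u hu v huv with h1 | h1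
    · exact absurd h1 hv
    · exact h1
  have hN2 : (Nb G P).ncard ≤ 2 := (Set.ncard_le_ncard hN (Set.toFinite _)).trans hQ
  by_cases h2 : 2 ≤ P.ncard
  · have h3 := h.conn P (hP.trans h.MU) h2 hN2
    have h4 : U \ (M ∪ {l1, l2, l3}) ⊆ U \ (P ∪ Nb G P) := by
      rintro v ⟨hv, hv'⟩
      refine ⟨hv, ?_⟩
      rintro (h5 | ⟨-, u, hu, huv⟩)
      · exact hv' (Or.inl (hP h5))
      · exact hv' (h.nbr (hP hu) huv)
    have h5 := Set.ncard_le_ncard h4 (Set.toFinite _)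
    have h6 := h.rest
    omega
  · have h3 : G.neighborSet y ⊆ Nb G P := by
      intro v hv
      refine ⟨?_, y, hy, hv⟩
      intro hvP
      have hne : y ≠ v := SimpleGraph.Adj.ne hv
      exact h2 (two_le_ncard_of hy hvP hne)
    have h4 := Set.ncard_le_ncard h3 (Set.toFinite _)
    have h5 := h.deg3 y (h.MU (hP hy))
    omega

/-- A proper subset of `M` with at most three neighbours has at most one vertex. -/
lemma MSide.three [Finite V] (h : MSide G U M l1 l2 l3) {P Q : Set V} (hP : P ⊆ M) (hne : P ≠ M)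
    (hPQ : ∀ u ∈ P, ∀ v, G.Adj u v → v ∈ P ∨ v ∈ Q) (hQ : Q.ncard ≤ 3) : P.ncard ≤ 1 := by
  by_contra hcon
  have hN : Nb G P ⊆ Q := by
    rintro v ⟨hv, u, hu, huv⟩
    rcases hPQ u hu v huv with h1 | h1
    · exact absurd h1 hv
    · exact h1
  have hN2 : (Nb G P).ncard ≤ 3 := (Set.ncard_le_ncard hN (Set.toFinite _)).trans hQ
  have h3 := h.min P hP hne (by omega)
  omega

/-! ### adjacency in the tie graph -/

lemma tieG_adj {u v : V} : (tieG G M x l1 l2 l3).Adj u v ↔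
    (G.Adj u v ∧ (u ∈ M ∨ v ∈ M)) ∨
      (s(u, v) ∈ ({s(x, l1), s(x, l2), s(x, l3), s(l1, l2)} : Set (Sym2 V)) ∧ u ≠ v) := by
  unfold tieG
  rw [SimpleGraph.sup_adj, restr_adj, SimpleGraph.fromEdgeSet_adj]

lemma Tie.special (_ : Tie G U M x l1 l2 l3) {u v : V}
    (huv : s(u, v) ∈ ({s(x, l1), s(x, l2), s(x, l3), s(l1, l2)} : Set (Sym2 V))) :
    (u = x ∨ u = l1 ∨ u = l2 ∨ u = l3) ∧ (v = x ∨ v = l1 ∨ v = l2 ∨ v = l3) := by
  simp only [Set.mem_insert_iff, Set.mem_singleton_iff, Sym2.eq_iff] at huv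
  tauto

lemma Tie.notM (h : Tie G U M x l1 l2 l3) {u : V} (hu : u = x ∨ u = l1 ∨ u = l2 ∨ u = l3) :
    u ∉ M := by
  rcases hu with rfl | rfl | rfl | rfl
  · exact h.xM
  · exact h.m1.1
  · exact h.m2.1
  · exact h.m3.1

lemma Tie.adjM (h : Tie G U M x l1 l2 l3) {u v : V} (hu : u ∈ M) :
    (tieG G M x l1 l2 l3).Adj u v ↔ G.Adj u v := by
  rw [tieG_adj]
  constructor
  · rintro (h1 | h1)
    · exact h1.1
    · exact absurd hu (h.notM (h.special h1.1).1)
  · intro h1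
    exact Or.inl ⟨h1, Or.inl hu⟩

lemma Tie.adjM' (h : Tie G U M x l1 l2 l3) {u v : V} (hu : u ∈ M) :
    (tieG G M x l1 l2 l3).Adj v u ↔ G.Adj v u := by
  rw [SimpleGraph.adj_comm, h.adjM hu, SimpleGraph.adj_comm]

lemma Tie.x_not (h : Tie G U M x l1 l2 l3) {v : V} (hv : v ∈ M) : ¬ G.Adj x v := by
  intro hxv
  rcases h.nbr hv hxv.symm with h1 | h1 | h1 | h1
  · exact h.xM h1
  · exact h.x1 h1
  · exact h.x2 h1
  · exact h.x3 h1

lemma Tie.xl1 (h : Tie G U M x l1 l2 l3) : (tieG G M x l1 l2 l3).Adj x l1 :=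
  tieG_adj.2 (Or.inr ⟨by simp, h.x1⟩)

lemma Tie.xl2 (h : Tie G U M x l1 l2 l3) : (tieG G M x l1 l2 l3).Adj x l2 :=
  tieG_adj.2 (Or.inr ⟨by simp, h.x2⟩)

lemma Tie.xl3 (h : Tie G U M x l1 l2 l3) : (tieG G M x l1 l2 l3).Adj x l3 :=
  tieG_adj.2 (Or.inr ⟨by simp, h.x3⟩)

lemma Tie.ll (h : Tie G U M x l1 l2 l3) : (tieG G M x l1 l2 l3).Adj l1 l2 :=
  tieG_adj.2 (Or.inr ⟨by simp, h.l12⟩)

lemma Tie.adjx (h : Tie G U M x l1 l2 l3) {v : V} :
    (tieG G M x l1 l2 l3).Adj x v ↔ v = l1 ∨ v = l2 ∨ v = l3 := by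
  constructor
  · intro h1
    rcases tieG_adj.1 h1 with ⟨h2, h3 | h3⟩ | ⟨h2, h3⟩
    · exact absurd h3 h.xM
    · exact absurd h2 (h.x_not h3)
    · have a1 := h.x1
      have a2 := h.x2
      have a3 := h.x3
      simp only [Set.mem_insert_iff, Set.mem_singleton_iff, Sym2.eq_iff] at h2
      tauto
  · rintro (rfl | rfl | rfl)
    · exact h.xl1
    · exact h.xl2
    · exact h.xl3

lemma Tie.adj3 (h : Tie G U M x l1 l2 l3) {v : V} :
    (tieG G M x l1 l2 l3).Adj l3 v ↔ (G.Adj l3 v ∧ v ∈ M) ∨ v = x := by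
  constructor
  · intro h1
    rcases tieG_adj.1 h1 with ⟨h2, h3 | h3⟩ | ⟨h2, h3⟩
    · exact absurd h3 h.m3.1
    · exact Or.inl ⟨h2, h3⟩
    · have a1 := h.x1
      have a2 := h.x2
      have a3 := h.x3
      have a4 := h.l13
      have a5 := h.l23
      simp only [Set.mem_insert_iff, Set.mem_singleton_iff, Sym2.eq_iff] at h2
      tauto
  · rintro (⟨h1, h2⟩ | rfl)
    · exact tieG_adj.2 (Or.inl ⟨h1, Or.inr h2⟩)
    · exact h.xl3.symm

lemma Tie.adj1 (h : Tie G U M x l1 l2 l3) {v : V} :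
    (tieG G M x l1 l2 l3).Adj l1 v ↔ (G.Adj l1 v ∧ v ∈ M) ∨ v = x ∨ v = l2 := by
  constructor
  · intro h1
    rcases tieG_adj.1 h1 with ⟨h2, h3 | h3⟩ | ⟨h2, h3⟩
    · exact absurd h3 h.m1.1
    · exact Or.inl ⟨h2, h3⟩
    · have a1 := h.x1
      have a2 := h.x2
      have a3 := h.x3
      have a4 := h.l13
      have a5 := h.l12
      simp only [Set.mem_insert_iff, Set.mem_singleton_iff, Sym2.eq_iff] at h2
      tauto
  · rintro (⟨h1, h2⟩ | rfl | rfl)
    · exact tieG_adj.2 (Or.inl ⟨h1, Or.inr h2⟩)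
    · exact h.xl1.symm
    · exact h.ll

lemma mem_tieU {v : V} : v ∈ tieU M x l1 l2 l3 ↔ v ∈ M ∨ v = x ∨ v = l1 ∨ v = l2 ∨ v = l3 :=
  Iff.rfl

lemma Tie.edge (h : Tie G U M x l1 l2 l3) {u v : V} (huv : (tieG G M x l1 l2 l3).Adj u v) :
    u ∈ tieU M x l1 l2 l3 := by
  rw [mem_tieU]
  rcases tieG_adj.1 huv with ⟨h2, h3 | h3⟩ | ⟨h2, h3⟩
  · exact Or.inl h3
  · rcases h.nbr h3 h2.symm with h4 | h4
    · exact Or.inl h4
    · exact Or.inr (Or.inr h4)
  · exact Or.inr (h.special h2).1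

lemma Tie.card [Finite V] (h : Tie G U M x l1 l2 l3) :
    (tieU M x l1 l2 l3).ncard = M.ncard + 4 := by
  classical
  have h1 : ({x, l1, l2, l3} : Set V).ncard = 4 := by
    rw [Set.ncard_insert_of_notMem _ (Set.toFinite _), Set.ncard_insert_of_notMem _
      (Set.toFinite _), Set.ncard_pair h.l23]
    · simp only [Set.mem_insert_iff, Set.mem_singleton_iff, not_or]
      exact ⟨h.l12, h.l13⟩
    · simp only [Set.mem_insert_iff, Set.mem_singleton_iff, not_or]
      exact ⟨h.x1, h.x2, h.x3⟩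
  unfold tieU
  rw [Set.ncard_union_eq _ (Set.toFinite _) (Set.toFinite _), h1]
  rw [Set.disjoint_left]
  intro v hv hv'
  exact h.notM hv' hv

lemma Tie.card_lt [Finite V] (h : Tie G U M x l1 l2 l3) :
    (tieU M x l1 l2 l3).ncard < U.ncard := by
  classical
  have h1 := h.card
  have h2 : (M ∪ {l1, l2, l3} : Set V).ncard = M.ncard + 3 := by
    rw [Set.ncard_union_eq _ (Set.toFinite _) (Set.toFinite _),
      Set.ncard_eq_three.2 ⟨l1, l2, l3, h.l12, h.l13, h.l23, rfl⟩]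
    rw [Set.disjoint_left]
    intro v hv hv'
    exact h.notM (Or.inr hv') hv
  have h3 : M ∪ {l1, l2, l3} ⊆ U := by
    rintro v (hv | rfl | rfl | rfl)
    · exact h.MU hv
    · exact h.u1
    · exact h.u2
    · exact h.u3
  have h4 := Set.ncard_sdiff_add_ncard_of_subset h3 (Set.toFinite _)
  have h5 := h.rest
  omega

/-! ### degree, index and density -/

lemma Tie.deg2 [Finite V] (h : Tie G U M x l1 l2 l3) :
    ∀ y ∈ tieU M x l1 l2 l3, 2 ≤ ((tieG G M x l1 l2 l3).neighborSet y).ncard := by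
  classical
  have root : ∀ l, (∃ u ∈ M, G.Adj u l) → (tieG G M x l1 l2 l3).Adj x l →
      2 ≤ ((tieG G M x l1 l2 l3).neighborSet l).ncard := by
    rintro l ⟨u, hu, hul⟩ hxl
    refine two_le_ncard_of (a := u) (b := x) ?_ hxl.symm ?_
    · exact ((h.adjM hu).2 hul).symm
    · intro hh
      exact h.xM (hh ▸ hu)
  intro y hy
  rcases mem_tieU.1 hy with hy | rfl | rfl | rfl | rfl
  · have e : (tieG G M x l1 l2 l3).neighborSet y = G.neighborSet y := by
      ext v; exact h.adjM hy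
    rw [e]
    have := h.deg3 y (h.MU hy)
    omega
  · exact two_le_ncard_of (a := l1) (b := l2) h.xl1 h.xl2 h.l12
  · exact root _ h.m1.2 h.xl1
  · exact root _ h.m2.2 h.xl2
  · exact root _ h.m3.2 h.xl3

lemma z2_tri {a b c : ZMod 2} (h1 : a ≠ b) (h2 : a ≠ c) (h3 : b ≠ c) : False := by
  revert a b c; decide

lemma Tie.idx (h : Tie G U M x l1 l2 l3) (w : V) (κ : V → ZMod 2) :
    ¬ BalOff (tieG G M x l1 l2 l3) (fun _ => 1) {w} κ := by
  intro hb
  have hne : ∀ u v, u ≠ w → v ≠ w → (tieG G M x l1 l2 l3).Adj u v → κ u ≠ κ v := by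
    intro u v hu hv huv
    exact add_eq_one_iff.1 (hb u v hu hv huv).symm
  have hMM : ∀ u v, u ∈ M → u ≠ w → v ≠ w → G.Adj u v → κ u ≠ κ v := fun u v hu hu' hv huv =>
    hne u v hu' hv ((h.adjM hu).2 huv)
  by_cases hwx : w = x
  · refine h.nonbal κ (fun u v hu huv => hMM u v hu ?_ ?_ huv)
    · rintro rfl; exact h.xM (hwx ▸ hu)
    · rintro rfl; exact h.x_not hu (hwx ▸ huv.symm)
  by_cases hw1 : w = l1
  · refine h.noapex l1 (Or.inl rfl) κ (fun u v hu hv huv => hMM u v hu ?_ (hw1 ▸ hv) huv)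
    rintro rfl; exact h.m1.1 (hw1 ▸ hu)
  by_cases hw2 : w = l2
  · refine h.noapex l2 (Or.inr (Or.inl rfl)) κ (fun u v hu hv huv =>
      hMM u v hu ?_ (hw2 ▸ hv) huv)
    rintro rfl; exact h.m2.1 (hw2 ▸ hu)
  · exact z2_tri (hne x l1 (Ne.symm hwx) (Ne.symm hw1) h.xl1)
      (hne x l2 (Ne.symm hwx) (Ne.symm hw2) h.xl2)
      (hne l1 l2 (Ne.symm hw1) (Ne.symm hw2) h.ll)

lemma Tie.dens' [Finite V] (h : Tie G U M x l1 l2 l3) :
    2 * (tieU M x l1 l2 l3).ncard ≤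
      (odG (tieG G M x l1 l2 l3) (fun _ => 1)).edgeSet.ncard + 2 := by
  classical
  rw [odG_one, h.card]
  set F : Set (Sym2 V) := {s(x, l1), s(x, l2), s(x, l3), s(l1, l2)} with hF
  have a1 := h.x1
  have a2 := h.x2
  have a3 := h.x3
  have a4 := h.l12
  have a5 := h.l13
  have a6 := h.l23
  have hF4 : F.ncard = 4 := by
    rw [hF, Set.ncard_insert_of_notMem _ (Set.toFinite _), Set.ncard_insert_of_notMem _
      (Set.toFinite _), Set.ncard_pair]
    · simp only [ne_eq, Sym2.eq_iff]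
      tauto
    · simp only [Set.mem_insert_iff, Set.mem_singleton_iff, Sym2.eq_iff]
      tauto
    · simp only [Set.mem_insert_iff, Set.mem_singleton_iff, Sym2.eq_iff]
      tauto
  have hsub : EAt G M ∪ F ⊆ (tieG G M x l1 l2 l3).edgeSet := by
    intro e
    induction e using Sym2.ind with
    | _ u v =>
      rintro (he | he)
      · rw [mem_EAt] at he
        exact tieG_adj.2 (Or.inl he)
      · refine tieG_adj.2 (Or.inr ⟨he, ?_⟩)
        rw [hF] at he
        simp only [Set.mem_insert_iff, Set.mem_singleton_iff, Sym2.eq_iff] at he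
        intro huv
        have huv' : u = v := huv
        subst huv'
        have b1 := a1.symm
        have b2 := a2.symm
        have b3 := a3.symm
        have b4 := a4.symm
        rcases he with (⟨h1, h2⟩ | ⟨h1, h2⟩) | (⟨h1, h2⟩ | ⟨h1, h2⟩) | (⟨h1, h2⟩ | ⟨h1, h2⟩) |
          (⟨h1, h2⟩ | ⟨h1, h2⟩)
        · exact a1 (h1.symm.trans h2)
        · exact b1 (h1.symm.trans h2)
        · exact a2 (h1.symm.trans h2)
        · exact b2 (h1.symm.trans h2)
        · exact a3 (h1.symm.trans h2)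
        · exact b3 (h1.symm.trans h2)
        · exact a4 (h1.symm.trans h2)
        · exact b4 (h1.symm.trans h2)
  have hdis : Disjoint (EAt G M) F := by
    rw [Set.disjoint_left]
    intro e
    induction e using Sym2.ind with
    | _ u v =>
      intro he he'
      rw [mem_EAt] at he
      have h1 := h.special he'
      rcases he.2 with h2 | h2
      · exact h.notM h1.1 h2
      · exact h.notM h1.2 h2
  have h1 := Set.ncard_le_ncard hsub (Set.toFinite _)
  rw [Set.ncard_union_eq hdis (Set.toFinite _) (Set.toFinite _), hF4] at h1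
  have h2 := h.dens
  unfold fden at h2
  have h3 : rho G M = (EAt G M).ncard := rfl
  omega

/-! ### connectivity -/

/-- the roots on a side, when `x` is in the separator -/
lemma Tie.side_roots [Finite V] (h : Tie G U M x l1 l2 l3) {A N : Set V}
    (hA : A ⊆ tieU M x l1 l2 l3)
    (hAN : ∀ u ∈ A, ∀ v, (tieG G M x l1 l2 l3).Adj u v → v ∈ A ∨ v ∈ N)
    (hN : N.ncard ≤ 2) (hA2 : 2 ≤ A.ncard) (hxN : x ∈ N) (hxA : x ∉ A) (a : V) :
    ∃ l, l ∈ A ∧ l ≠ a ∧ (l = l1 ∨ l = l2 ∨ l = l3) := by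
  classical
  by_contra hcon
  push Not at hcon
  have hroot : ∀ l ∈ A, (l = l1 ∨ l = l2 ∨ l = l3) → l = a := by
    intro l hl hl'
    by_contra hne
    have := hcon l hl hne
    tauto
  have h1 : A ∩ M = ∅ := by
    refine h.small (Q := insert a (N \ {x})) Set.inter_subset_right ?_ ?_
    · rintro u ⟨hu, huM⟩ v huv
      by_cases hvM : v ∈ M
      · rcases hAN u hu v ((h.adjM huM).2 huv) with h2 | h2
        · exact Or.inl ⟨h2, hvM⟩
        · refine Or.inr (Or.inr ⟨h2, ?_⟩)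
          rintro rfl
          exact h.xM hvM
      · have hvL : v = l1 ∨ v = l2 ∨ v = l3 := by
          rcases h.nbr huM huv with h2 | h2
          · exact absurd h2 hvM
          · exact h2
        rcases hAN u hu v ((h.adjM huM).2 huv) with h2 | h2
        · exact Or.inr (Or.inl (hroot v h2 hvL))
        · refine Or.inr (Or.inr ⟨h2, ?_⟩)
          rintro rfl
          exact h.x_not huM huv.symm
    · have h2 := Set.ncard_insert_le a (N \ {x})
      have h3 := Set.ncard_sdiff_singleton_of_mem hxN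
      omega
  have h2 : A ⊆ {a} := by
    intro u hu
    rcases mem_tieU.1 (hA hu) with h3 | h3 | h3
    · have h4 : u ∈ A ∩ M := ⟨hu, h3⟩
      rw [h1] at h4
      exact absurd h4 (Set.notMem_empty _)
    · exact absurd (h3 ▸ hu) hxA
    · exact hroot u hu h3
  have h3 := Set.ncard_le_ncard h2 (Set.toFinite _)
  rw [Set.ncard_singleton] at h3
  omega

lemma Tie.side_x [Finite V] (h : Tie G U M x l1 l2 l3) {A B N : Set V}
    (hB : B ⊆ tieU M x l1 l2 l3)
    (hBN : ∀ u ∈ B, ∀ v, (tieG G M x l1 l2 l3).Adj u v → v ∈ B ∨ v ∈ N)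
    (hN : N.ncard ≤ 2) (hB2 : 2 ≤ B.ncard) (hAB : Disjoint A B) (hAN : Disjoint A N)
    (hxA : x ∈ A) : False := by
  have hxB : x ∉ B := fun hh => Set.disjoint_left.1 hAB hxA hh
  have hxN : x ∉ N := fun hh => Set.disjoint_left.1 hAN hxA hh
  have hno : ∀ u ∈ B, ¬ (tieG G M x l1 l2 l3).Adj u x := by
    intro u hu hux
    rcases hBN u hu x hux with h1 | h1
    · exact hxB h1
    · exact hxN h1
  have hBM : B ⊆ M := by
    intro u hu
    rcases mem_tieU.1 (hB hu) with h3 | h3 | h3 | h3 | h3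
    · exact h3
    · exact absurd (h3 ▸ hu) hxB
    · exact absurd (h3 ▸ h.xl1.symm) (hno u hu)
    · exact absurd (h3 ▸ h.xl2.symm) (hno u hu)
    · exact absurd (h3 ▸ h.xl3.symm) (hno u hu)
  have h1 : B = ∅ := h.small hBM (fun u hu v huv => hBN u hu v ((h.adjM (hBM hu)).2 huv)) hN
  rw [h1, Set.ncard_empty] at hB2
  omega

theorem Tie.conn' [Finite V] (h : Tie G U M x l1 l2 l3) :
    ∀ Y ⊆ tieU M x l1 l2 l3, 2 ≤ Y.ncard → (Nb (tieG G M x l1 l2 l3) Y).ncard ≤ 2 →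
      (tieU M x l1 l2 l3 \ (Y ∪ Nb (tieG G M x l1 l2 l3) Y)).ncard ≤ 1 := by
  classical
  intro Y hY hY2 hN
  by_contra hZ
  set T := tieG G M x l1 l2 l3 with hT
  set N := Nb T Y with hNd
  set Z := tieU M x l1 l2 l3 \ (Y ∪ N) with hZd
  have hYN : ∀ u ∈ Y, ∀ v, T.Adj u v → v ∈ Y ∨ v ∈ N := fun u hu v huv => mem_or_Nb1 hu huv
  have hZN : ∀ u ∈ Z, ∀ v, T.Adj u v → v ∈ Z ∨ v ∈ N := by
    intro u hu v huv
    by_cases hvN : v ∈ N
    · exact Or.inr hvN
    · refine Or.inl ⟨h.edge huv.symm, ?_⟩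
      rintro (h1 | h1)
      · rcases hYN v h1 u huv.symm with h2 | h2
        · exact hu.2 (Or.inl h2)
        · exact hu.2 (Or.inr h2)
      · exact hvN h1
  have hZU : Z ⊆ tieU M x l1 l2 l3 := fun u hu => hu.1
  have hYZ : Disjoint Y Z := by
    rw [Set.disjoint_left]; exact fun u hu hu' => hu'.2 (Or.inl hu)
  have hYNd : Disjoint Y N := by
    rw [Set.disjoint_left]; exact fun u hu hu' => hu'.1 hu
  have hZNd : Disjoint Z N := by
    rw [Set.disjoint_left]; exact fun u hu hu' => hu.2 (Or.inr hu')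
  have hZ2 : 2 ≤ Z.ncard := by omega
  by_cases hxY : x ∈ Y
  · exact h.side_x hZU hZN hN hZ2 hYZ hYNd hxY
  by_cases hxN : x ∈ N
  · have hxZ : x ∉ Z := fun hh => hh.2 (Or.inr hxN)
    have key : ∀ {A B : Set V}, A ⊆ tieU M x l1 l2 l3 → B ⊆ tieU M x l1 l2 l3 →
        (∀ u ∈ A, ∀ v, T.Adj u v → v ∈ A ∨ v ∈ N) → (∀ u ∈ B, ∀ v, T.Adj u v → v ∈ B ∨ v ∈ N) →
        2 ≤ A.ncard → 2 ≤ B.ncard → x ∉ A → x ∉ B → Disjoint A B → False := by
      intro A B hA hB hAN hBN hA2 hB2 hxA hxB hAB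
      obtain ⟨l, hl, -, hl'⟩ := h.side_roots hA hAN hN hA2 hxN hxA x
      obtain ⟨m, hm, hml, hm'⟩ := h.side_roots hA hAN hN hA2 hxN hxA l
      have hfin : ∀ a, (∀ r, (r = l1 ∨ r = l2 ∨ r = l3) → r = a ∨ r = l ∨ r = m) → False := by
        intro a ha
        obtain ⟨r, hr, hra, hr'⟩ := h.side_roots hB hBN hN hB2 hxN hxB a
        rcases ha r hr' with h1 | h1 | h1
        · exact hra h1
        · exact Set.disjoint_left.1 hAB hl (h1 ▸ hr)
        · exact Set.disjoint_left.1 hAB hm (h1 ▸ hr)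
      rcases hl' with rfl | rfl | rfl <;> rcases hm' with rfl | rfl | rfl
      · exact hml rfl
      · exact hfin l3 (fun r hr => by tauto)
      · exact hfin l2 (fun r hr => by tauto)
      · exact hfin l3 (fun r hr => by tauto)
      · exact hml rfl
      · exact hfin l1 (fun r hr => by tauto)
      · exact hfin l2 (fun r hr => by tauto)
      · exact hfin l1 (fun r hr => by tauto)
      · exact hml rfl
    exact key hY hZU hYN hZN hY2 hZ2 hxY hxZ hYZ
  · have hxZ : x ∈ Z := ⟨Or.inr (Or.inl rfl), by rintro (h1 | h1); exacts [hxY h1, hxN h1]⟩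
    exact h.side_x hY hYN hN hY2 hYZ.symm hZNd hxZ

end

end Pool.Agent.Helper75.SEP
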