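import Pool.Agent.Helper75.SEP.Ties

/-!
# The tie beside a minimal nonbalanced three-side, part 2: balanced sets, the theorem
-/

set_option autoImplicit false

namespace Pool.Agent.Helper75.SEP

open SimpleGraph Pool.Agent.Helper57.TOK Pool.Agent.Helper57.TD Pool.Agent.Helper82.TK
  Pool.Agent.Helper51.GX Pool.Agent.Helper1.GL Pool.Agent.Helper75.GX

variable {V : Type*}

lemma three_of_two [Finite V] {N : Set V} (hN : N.ncard = 3) {a b : V} (ha : a ∈ N) (hb : b ∈ N)
    (hab : a ≠ b) : ∃ s, N = {a, b, s} ∧ s ≠ a ∧ s ≠ b := by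
  obtain ⟨p, q, r, hpq, hpr, hqr, rfl⟩ := Set.ncard_eq_three.1 hN
  simp only [Set.mem_insert_iff, Set.mem_singleton_iff] at ha hb
  rcases ha with rfl | rfl | rfl <;> rcases hb with rfl | rfl | rfl
  · exact absurd rfl hab
  · exact ⟨r, rfl, hpr.symm, hqr.symm⟩
  · exact ⟨q, by rw [Set.pair_comm], hpq.symm, hqr⟩
  · exact ⟨r, by rw [Set.insert_comm], hqr.symm, hpr.symm⟩
  · exact absurd rfl hab
  · refine ⟨p, ?_, hpq, hpr⟩
    ext z; simp only [Set.mem_insert_iff, Set.mem_singleton_iff]; tauto
  · refine ⟨q, ?_, hqr, hpq.symm⟩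
    ext z; simp only [Set.mem_insert_iff, Set.mem_singleton_iff]; tauto
  · refine ⟨p, ?_, hpr, hpq⟩
    ext z; simp only [Set.mem_insert_iff, Set.mem_singleton_iff]; tauto
  · exact absurd rfl hab

lemma three_of_one [Finite V] {N : Set V} (hN : N.ncard = 3) {a : V} (ha : a ∈ N) :
    ∃ s t, N = {a, s, t} ∧ s ≠ a ∧ t ≠ a ∧ s ≠ t := by
  obtain ⟨p, q, r, hpq, hpr, hqr, rfl⟩ := Set.ncard_eq_three.1 hN
  simp only [Set.mem_insert_iff, Set.mem_singleton_iff] at ha
  rcases ha with rfl | rfl | rfl
  · exact ⟨q, r, rfl, hpq.symm, hpr.symm, hqr⟩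
  · exact ⟨p, r, by rw [Set.insert_comm], hpq, hqr.symm, hpr⟩
  · refine ⟨p, q, ?_, hpr, hqr, hpq⟩
    ext z; simp only [Set.mem_insert_iff, Set.mem_singleton_iff]; tauto

lemma beta_three_nonneg [Finite V] {N : Set V} (hN : N.ncard = 3) (κ : V → ZMod 2) :
    0 ≤ beta κ N := by
  unfold beta
  rw [hN]
  split_ifs <;> norm_num

lemma ncard_triple_le [Finite V] (a b d : V) : ({a, b, d} : Set V).ncard ≤ 3 := by
  have h1 := Set.ncard_insert_le a ({b, d} : Set V)
  have h2 := Set.ncard_insert_le b ({d} : Set V)
  rw [Set.ncard_singleton] at h2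
  omega

lemma z2_two {a b c : ZMod 2} (h1 : a ≠ b) (h2 : a ≠ c) : b = c := by
  revert a b c; decide

section

variable {G : SimpleGraph V} {U M : Set V} {x l1 l2 l3 : V}

/-- a vertex of `M` whose neighbours lie in a set of three vertices -/
lemma MSide.all3 [Finite V] (h : MSide G U M l1 l2 l3) {y a b d : V} (hy : y ∈ M)
    (hN : ∀ v, G.Adj y v → v = a ∨ v = b ∨ v = d) : G.Adj y a ∧ G.Adj y b ∧ G.Adj y d := by
  have h1 : G.neighborSet y ⊆ {a, b, d} := fun v hv => hN v hv
  have h2 := h.deg3 y (h.MU hy)
  have h3 := ncard_triple_le a b d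
  have h4 : G.neighborSet y = {a, b, d} :=
    Set.eq_of_subset_of_ncard_le h1 (by omega) (Set.toFinite _)
  have h5 : ∀ v, v ∈ ({a, b, d} : Set V) → G.Adj y v := by
    intro v hv
    rw [← h4] at hv
    exact hv
  exact ⟨h5 a (by simp), h5 b (by simp), h5 d (by simp)⟩

/-- The only possible obstacle: `N' = {l1, l2, s}`, and the rest is one vertex `z`. -/
theorem Tie.tok_of_bad [Finite V] (h : Tie G U M x l1 l2 l3) {Y : Set V} {s z : V}
    {κ : V → ZMod 2}
    (hκ : ∀ u v, u ∈ Y → (tieG G M x l1 l2 l3).Adj u v → κ u ≠ κ v)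
    (hxY : x ∈ Y) (h3Y : l3 ∈ Y) (hsM : s ∈ M) (hzM : z ∈ M) (hsY : s ∉ Y) (hzY : z ∉ Y)
    (hsz : s ≠ z)
    (hcov : ∀ u ∈ M, u ∈ Y ∨ u = s ∨ u = z)
    (h1Y : l1 ∉ Y) (h2Y : l2 ∉ Y)
    (hYn : ∀ u ∈ Y, ∀ v, (tieG G M x l1 l2 l3).Adj u v → v ∈ Y ∨ v = l1 ∨ v = l2 ∨ v = s)
    (hz : G.Adj z l1 ∧ G.Adj z l2 ∧ G.Adj z s) :
    HasTOK4s (tieG G M x l1 l2 l3) (fun _ => 1) := by
  classical
  set T := tieG G M x l1 l2 l3 with hT
  have hx1 : κ x ≠ κ l1 := hκ x l1 hxY h.xl1
  have hx2 : κ x ≠ κ l2 := hκ x l2 hxY h.xl2
  have hx3 : κ x ≠ κ l3 := hκ x l3 hxY h.xl3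
  have h12 : κ l1 = κ l2 := z2_two hx1 hx2
  have h13 : κ l1 = κ l3 := z2_two hx1 hx3
  have hzT : T.Adj z l1 ∧ T.Adj z l2 ∧ T.Adj z s :=
    ⟨(h.adjM hzM).2 hz.1, (h.adjM hzM).2 hz.2.1, (h.adjM hzM).2 hz.2.2⟩
  have hxz : x ≠ z := fun hh => hzY (hh ▸ hxY)
  have hxs : x ≠ s := fun hh => hsY (hh ▸ hxY)
  have hzl1 : z ≠ l1 := fun hh => h.m1.1 (hh ▸ hzM)
  have hzl2 : z ≠ l2 := fun hh => h.m2.1 (hh ▸ hzM)
  have hzl3 : z ≠ l3 := fun hh => h.m3.1 (hh ▸ hzM)
  have hsl1 : s ≠ l1 := fun hh => h.m1.1 (hh ▸ hsM)
  have hsl2 : s ≠ l2 := fun hh => h.m2.1 (hh ▸ hsM)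
  have hsl3 : s ≠ l3 := fun hh => h.m3.1 (hh ▸ hsM)
  by_cases hs1 : κ s = κ l1
  · -- `s` is adjacent to both roots
    have hadj : ∀ l, (l = l1 ∨ l = l2) → ∀ l', (l' = l1 ∨ l' = l2) → l ≠ l' → G.Adj s l' := by
      intro l hl l' hl' hne
      by_contra hcon
      have hll : l = l1 ∨ l = l2 ∨ l = l3 := by tauto
      refine h.noapex l hll (fun v => if v = z then κ l1 + 1 else κ v) ?_
      intro u v hu hv huv
      have huT : T.Adj u v := (h.adjM hu).2 huv
      have hzcol : ∀ w, T.Adj z w → w ≠ l → w ≠ z → κ w = κ l1 := by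
        intro w hzw hwl hwz
        by_cases hwY : w ∈ Y
        · rcases hYn w hwY z hzw.symm with h1 | h1 | h1 | h1
          · exact absurd h1 hzY
          · exact absurd h1 hzl1
          · exact absurd h1 hzl2
          · exact absurd h1.symm hsz
        · rcases mem_tieU.1 (h.edge hzw.symm) with h1 | h1 | h1 | h1 | h1
          · rcases hcov w h1 with h2 | h2 | h2
            · exact absurd h2 hwY
            · rw [h2]; exact hs1
            · exact absurd h2 hwz
          · exact absurd (h1 ▸ hxY) hwY
          · rw [h1]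
          · rw [h1]; exact h12.symm
          · exact absurd (h1 ▸ h3Y) hwY
      by_cases huz : u = z
      · have hvz : v ≠ z := fun hh => huv.ne (huz.trans hh.symm)
        simp only [if_pos huz, if_neg hvz]
        rw [hzcol v (huz ▸ huT) hv hvz]
        exact z2_add_one_ne _
      by_cases hvz : v = z
      · simp only [if_pos hvz, if_neg huz]
        have hul : u ≠ l := by
          rcases hl with rfl | rfl
          · exact fun hh => h.m1.1 (hh ▸ hu)
          · exact fun hh => h.m2.1 (hh ▸ hu)
        rw [hzcol u (hvz ▸ huT.symm) hul huz]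
        exact z2_ne_add_one _
      · simp only [if_neg huz, if_neg hvz]
        by_cases huY : u ∈ Y
        · exact hκ u v huY huT
        by_cases hvY : v ∈ Y
        · exact (hκ v u hvY huT.symm).symm
        exfalso
        rcases hcov u hu with h1 | h1 | h1
        · exact huY h1
        · rcases mem_tieU.1 (h.edge huT.symm) with h2 | h2 | h2 | h2 | h2
          · rcases hcov v h2 with h3 | h3 | h3
            · exact hvY h3
            · exact huv.ne (h1.trans h3.symm)
            · exact hvz h3
          · exact hvY (h2 ▸ hxY)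
          · rw [h1, h2] at huv
            rw [h2] at hv
            rcases hl with rfl | rfl
            · exact hv rfl
            · rcases hl' with rfl | rfl
              · exact hcon huv
              · exact hne rfl
          · rw [h1, h2] at huv
            rw [h2] at hv
            rcases hl with rfl | rfl
            · rcases hl' with rfl | rfl
              · exact hne rfl
              · exact hcon huv
            · exact hv rfl
          · exact hvY (h2 ▸ h3Y)
        · exact huz h1
    have a1 : G.Adj s l1 := hadj l2 (Or.inr rfl) l1 (Or.inl rfl) h.l12.symm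
    have a2 : G.Adj s l2 := hadj l1 (Or.inl rfl) l2 (Or.inr rfl) h.l12
    have b1 : T.Adj s l1 := (h.adjM hsM).2 a1
    have b2 : T.Adj s l2 := (h.adjM hsM).2 a2
    refine HasTOK4s.of_K4 ![z, s, l1, l2] ?_ ?_
    · intro i j hij
      have e1 := hsz
      have e2 := h.l12
      fin_cases i <;> fin_cases j <;> simp at hij ⊢
      · exact e1 hij.symm
      · exact hzl1 hij
      · exact hzl2 hij
      · exact e1 hij
      · exact hsl1 hij
      · exact hsl2 hij
      · exact hzl1 hij.symm
      · exact hsl1 hij.symm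
      · exact e2 hij
      · exact hzl2 hij.symm
      · exact hsl2 hij.symm
      · exact e2 hij.symm
    · intro i j hij
      refine ⟨?_, rfl⟩
      fin_cases i <;> fin_cases j <;> simp at hij ⊢
      · exact hzT.2.2
      · exact hzT.1
      · exact hzT.2.1
      · exact b1
      · exact b2
      · exact h.ll
  · -- a path from `l3` to `s` in `Y`
    set A : Set V := {x, l1, l2, s} with hA
    set C : Set V := Reach T {l3} A with hC
    have h3A : l3 ∉ A := by
      simp only [hA, Set.mem_insert_iff, Set.mem_singleton_iff, not_or]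
      exact ⟨h.x3.symm, h.l13.symm, h.l23.symm, hsl3.symm⟩
    have h3C : l3 ∈ C := reach_of_mem rfl h3A
    have hCY : C ⊆ Y := by
      rintro w ⟨a, ha, p, hp⟩
      rw [Set.mem_singleton_iff] at ha
      subst ha
      have key : ∀ {a b : V} (p : T.Walk a b), a ∈ Y → (∀ w ∈ p.support, w ∉ A) → b ∈ Y := by
        intro a b p
        induction p with
        | nil => exact fun h1 _ => h1
        | cons hadj p ih =>
          intro h1 h2
          refine ih ?_ (fun w hw => h2 w (by rw [Walk.support_cons]; exact List.mem_cons_of_mem _ hw))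
          have h3 := h2 _ (by rw [Walk.support_cons]; exact List.mem_cons_of_mem _ p.start_mem_support)
          simp only [hA, Set.mem_insert_iff, Set.mem_singleton_iff, not_or] at h3
          rcases hYn _ h1 _ hadj with h4 | h4 | h4 | h4
          · exact h4
          · exact absurd h4 h3.2.1
          · exact absurd h4 h3.2.2.1
          · exact absurd h4 h3.2.2.2
      exact key p h3Y hp
    have hCx : x ∉ C := fun hh => by
      have := not_mem_of_reach hh
      exact this (Or.inl rfl)
    have hex : ∃ c ∈ C, T.Adj c s := by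
      by_contra hcon
      push Not at hcon
      have hCM : C \ {l3} ⊆ M := by
        rintro w ⟨hw, hw'⟩
        have h2 := not_mem_of_reach hw
        simp only [hA, Set.mem_insert_iff, Set.mem_singleton_iff, not_or] at h2
        have h3 : w ∈ tieU M x l1 l2 l3 := by
          obtain ⟨a, ha, p, hp⟩ := hw
          rw [Set.mem_singleton_iff] at ha
          subst ha
          by_cases haw : a = w
          · exact absurd haw.symm hw'
          · obtain ⟨w', hw'', -⟩ := exists_last_edge p haw
            exact h.edge hw''.symm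
        rcases mem_tieU.1 h3 with h4 | h4 | h4 | h4 | h4
        · exact h4
        · exact absurd h4 h2.1
        · exact absurd h4 h2.2.1
        · exact absurd h4 h2.2.2.1
        · exact absurd h4 hw'
      have hCn : ∀ u ∈ C \ {l3}, ∀ v, G.Adj u v → v ∈ C \ {l3} ∨ v ∈ ({l1, l2, l3} : Set V) := by
        intro u hu v huv
        have huT : T.Adj u v := (h.adjM (hCM hu)).2 huv
        by_cases hvA : v ∈ A
        · simp only [hA, Set.mem_insert_iff, Set.mem_singleton_iff] at hvA
          rcases hvA with h1 | h1 | h1 | h1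
          · exact absurd (h1 ▸ huv.symm) (h.x_not (hCM hu))
          · exact Or.inr (Or.inl h1)
          · exact Or.inr (Or.inr (Or.inl h1))
          · exact absurd (h1 ▸ huT) (hcon u hu.1)
        · by_cases hv3 : v = l3
          · exact Or.inr (Or.inr (Or.inr hv3))
          · exact Or.inl ⟨reach_adj hu.1 huT hvA, hv3⟩
      have hsC : s ∉ C \ {l3} := fun hh => hsY (hCY hh.1)
      have hC1 : (C \ {l3}).ncard ≤ 1 := by
        refine h.three hCM ?_ hCn (ncard_triple_le _ _ _)
        intro hh
        exact hsC (hh ▸ hsM)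
      obtain ⟨-, w, hwM, hwl⟩ := h.m3
      have hwT : T.Adj w l3 := (h.adjM hwM).2 hwl
      have hwC : w ∈ C \ {l3} := by
        refine ⟨reach_adj h3C hwT.symm ?_, fun hh => h.m3.1 (hh ▸ hwM)⟩
        simp only [hA, Set.mem_insert_iff, Set.mem_singleton_iff, not_or]
        refine ⟨?_, ?_, ?_, ?_⟩
        · rintro rfl; exact h.xM hwM
        · rintro rfl; exact h.m1.1 hwM
        · rintro rfl; exact h.m2.1 hwM
        · rintro rfl; exact hcon l3 h3C hwT.symm
      have hCe : ∀ v ∈ C \ {l3}, v = w := fun v hv => eq_of_ncard_le_one hC1 hv hwC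
      have hrest : (M \ {w}).ncard ≤ 1 := by
        refine h.three (Q := {l1, l2, l3}) Set.sdiff_subset ?_ ?_ (ncard_triple_le _ _ _)
        · intro hh
          have h5 : w ∈ M \ {w} := by rw [hh]; exact hwM
          exact h5.2 rfl
        · rintro u ⟨huM, huw⟩ v huv
          rcases h.nbr huM huv with h1 | h1
          · by_cases hvw : v = w
            · exfalso
              rcases hCn w hwC u (hvw ▸ huv.symm) with h2 | h2
              · exact huw (hCe u h2)
              · exact h.notM (Or.inr h2) huM
            · exact Or.inl ⟨h1, hvw⟩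
          · exact Or.inr h1
      have hsw : s ≠ w := fun hh => hsC (hh ▸ hwC)
      have hzw : z ≠ w := fun hh => hzY (hh ▸ hCY hwC.1)
      have := two_le_ncard_of (S := M \ {w}) ⟨hsM, hsw⟩ ⟨hzM, hzw⟩ hsz
      omega
    obtain ⟨c, hcC, hcs⟩ := hex
    obtain ⟨a, ha, p0, hp0⟩ := hcC
    rw [Set.mem_singleton_iff] at ha
    subst ha
    obtain ⟨p, hp, hpA⟩ : ∃ p : T.Walk a c, p.IsPath ∧ ∀ w ∈ p.support, w ∉ A := by
      refine ⟨p0.bypass, p0.bypass_isPath, fun w hw => hp0 w (p0.support_bypass_subset_support hw)⟩
    have hpY : ∀ w ∈ p.support, w ∈ Y := by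
      intro w hw
      refine hCY ⟨a, rfl, p.takeUntil w hw, ?_⟩
      intro w' hw'
      exact hpA w' (Walk.support_takeUntil_subset_support _ _ hw')
    have hnot : ∀ w ∈ p.support, w ≠ x ∧ w ≠ l1 ∧ w ≠ l2 ∧ w ≠ s ∧ w ≠ z := by
      intro w hw
      have h2 := hpA w hw
      simp only [hA, Set.mem_insert_iff, Set.mem_singleton_iff, not_or] at h2
      exact ⟨h2.1, h2.2.1, h2.2.2.1, h2.2.2.2, fun hh => hzY (hh ▸ hpY w hw)⟩
    -- weight of `p`
    have hwt : wt (fun _ => (1 : ZMod 2)) p = κ a + κ c := by
      have key : ∀ {a b : V} (p : T.Walk a b), (∀ w ∈ p.support, w ∈ Y) →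
          wt (fun _ => (1 : ZMod 2)) p = κ a + κ b := by
        intro a b p
        induction p with
        | nil => intro _; rw [wt_nil, zz]
        | @cons u v w hadj p ih =>
          intro h1
          have h2 := ih (fun w hw => h1 w (by
            rw [Walk.support_cons]; exact List.mem_cons_of_mem _ hw))
          have h3 := hκ u v (h1 u (by rw [Walk.support_cons]; exact List.mem_cons_self)) hadj
          rw [wt_cons, h2]
          have h4 : κ u = κ v + 1 := z2_eq_add_one h3
          rw [h4]; ring
      exact key p hpY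
    have hcs' : κ c ≠ κ s := hκ c s (hpY c p.end_mem_support) hcs
    -- the long spoke
    set P0 : T.Walk x z := Walk.cons h.xl3 (p.append (Walk.cons hcs (Walk.cons hzT.2.2.symm
      Walk.nil))) with hP0
    have hsup : P0.support = x :: (p.support ++ [s, z]) := by
      rw [hP0, Walk.support_cons, Walk.support_append]
      simp
    have hsup' : ∀ w ∈ P0.support, w = x ∨ w ∈ p.support ∨ w = s ∨ w = z := by
      intro w hw
      rw [hsup] at hw
      simp only [List.mem_cons, List.mem_append, List.not_mem_nil, or_false] at hw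
      exact hw
    have hP0p : P0.IsPath := by
      rw [Walk.isPath_def, hsup, List.nodup_cons]
      refine ⟨?_, ?_⟩
      · simp only [List.mem_append, List.mem_cons, List.not_mem_nil, or_false, not_or]
        exact ⟨fun hh => (hnot x hh).1 rfl, hxs, hxz⟩
      · rw [List.nodup_append]
        refine ⟨(Walk.isPath_def _).1 hp, ?_, ?_⟩
        · simp only [List.nodup_cons, List.mem_cons, List.not_mem_nil, or_false,
            not_false_eq_true, List.nodup_nil, and_true]
          exact hsz
        · intro w hw w' hw' hh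
          simp only [List.mem_cons, List.not_mem_nil, or_false] at hw'
          rcases hw' with h1 | h1
          · exact (hnot w hw).2.2.2.1 (hh.trans h1)
          · exact (hnot w hw).2.2.2.2 (hh.trans h1)
    have hP0w : wt (fun _ => (1 : ZMod 2)) P0 = 1 := by
      rw [hP0, wt_cons, wt_append, wt_cons, wt_cons, wt_nil, hwt]
      have e1 : κ a = κ l1 := h13.symm
      have e2 : κ s = κ l1 + 1 := z2_eq_add_one hs1
      have e3 : κ c = κ l1 := by
        rw [e2] at hcs'
        have := z2_eq_add_one hcs'
        rw [this, add_assoc]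
        have : (1 : ZMod 2) + 1 = 0 := by decide
        rw [this, add_zero]
      rw [e1, e3, zz]
      decide
    refine HasTOK4s.of_lists ![x, z, l1, l2]
      (fun i j => if i = 0 ∧ j = 1 then P0.support else
        [(![x, z, l1, l2] : Fin 4 → V) i, (![x, z, l1, l2] : Fin 4 → V) j]) ?_ ?_ ?_
    · intro i j hij
      have e1 := h.x1
      have e2 := h.x2
      have e3 := h.l12
      fin_cases i <;> fin_cases j <;> simp at hij ⊢
      · exact hxz hij
      · exact e1 hij
      · exact e2 hij
      · exact hxz hij.symm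
      · exact hzl1 hij
      · exact hzl2 hij
      · exact e1 hij.symm
      · exact hzl1 hij.symm
      · exact e3 hij
      · exact e2 hij.symm
      · exact hzl2 hij.symm
      · exact e3 hij.symm
    · have hedge : ∀ u v : V, T.Adj u v → T.Adj u v ∧ ¬ u = v ∧
          lw (fun _ => (1 : ZMod 2)) [u, v] = 1 := by
        intro u v huv
        refine ⟨huv, huv.ne, ?_⟩
        simp [lw]
      have hlong : List.IsChain T.Adj P0.support ∧ P0.support.head? = some x ∧
          P0.support.getLast? = some z ∧ P0.support.Nodup ∧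
          lw (fun _ => (1 : ZMod 2)) P0.support = 1 := by
        have hlw : ∀ {u v : V} (q : T.Walk u v), lw (fun _ => (1 : ZMod 2)) q.support =
            wt (fun _ => (1 : ZMod 2)) q := by
          intro u v q
          induction q with
          | nil => simp [lw]
          | @cons u v w hadj q ih =>
            rw [Walk.support_cons, wt_cons, ← ih]
            obtain ⟨L, hL⟩ : ∃ L, q.support = v :: L := ⟨q.support.tail,
              (Walk.cons_tail_support q).symm⟩
            rw [hL]
            rfl
        refine ⟨Walk.isChain_adj_support P0, ?_, ?_, (Walk.isPath_def _).1 hP0p, ?_⟩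
        · rw [← Walk.cons_tail_support P0]; rfl
        · rw [List.getLast?_eq_getLast_of_ne_nil (Walk.support_ne_nil _), Walk.getLast_support]
        · rw [hlw, hP0w]
      intro i j hij
      fin_cases i <;> fin_cases j <;> simp at hij ⊢
      · exact hlong
      · exact hedge x l1 h.xl1
      · exact hedge x l2 h.xl2
      · exact hedge z l1 hzT.1
      · exact hedge z l2 hzT.2.1
      · exact hedge l1 l2 h.ll
    · have hlongmem : ∀ w ∈ P0.support, (w = x ∨ w = z) ∨ (w ≠ x ∧ w ≠ z ∧ w ≠ l1 ∧ w ≠ l2) := by
        intro w hw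
        rcases hsup' w hw with h1 | h1 | h1 | h1
        · exact Or.inl (Or.inl h1)
        · have := hnot w h1
          exact Or.inr ⟨this.1, this.2.2.2.2, this.2.1, this.2.2.1⟩
        · exact Or.inr ⟨h1 ▸ hxs.symm, h1 ▸ hsz, h1 ▸ hsl1, h1 ▸ hsl2⟩
        · exact Or.inl (Or.inr h1)
      intro i j k l hij hkl hne w hw hw'
      by_cases h1 : i = 0 ∧ j = 1
      · obtain ⟨rfl, rfl⟩ := h1
        have h2 : ¬ (k = 0 ∧ l = 1) := by
          rintro ⟨rfl, rfl⟩; exact hne rfl
        simp only [and_self, if_true] at hw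
        rw [if_neg h2] at hw'
        simp only [List.mem_cons, List.not_mem_nil, or_false] at hw'
        refine ⟨?_, hw'⟩
        rcases hlongmem w hw with h3 | h3
        · exact h3
        · exfalso
          rcases hw' with h4 | h4
          · fin_cases k
            · exact h3.1 h4
            · exact h3.2.1 h4
            · exact h3.2.2.1 h4
            · exact h3.2.2.2 h4
          · fin_cases l
            · exact h3.1 h4
            · exact h3.2.1 h4
            · exact h3.2.2.1 h4
            · exact h3.2.2.2 h4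
      · rw [if_neg h1] at hw
        simp only [List.mem_cons, List.not_mem_nil, or_false] at hw
        refine ⟨hw, ?_⟩
        by_cases h2 : k = 0 ∧ l = 1
        · obtain ⟨rfl, rfl⟩ := h2
          simp only [and_self, if_true] at hw'
          rcases hlongmem w hw' with h3 | h3
          · exact h3
          · exfalso
            rcases hw with h4 | h4
            · fin_cases i
              · exact h3.1 h4
              · exact h3.2.1 h4
              · exact h3.2.2.1 h4
              · exact h3.2.2.2 h4
            · fin_cases j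
              · exact h3.1 h4
              · exact h3.2.1 h4
              · exact h3.2.2.1 h4
              · exact h3.2.2.2 h4
        · rw [if_neg h2] at hw'
          simp only [List.mem_cons, List.not_mem_nil, or_false] at hw'
          exact hw'

end

end Pool.Agent.Helper75.SEP
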