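import Pool.Agent.Helper75.SEP.Ties2

/-!
# The tie beside a minimal nonbalanced three-side, part 3: the theorem
-/

set_option autoImplicit false

namespace Pool.Agent.Helper75.SEP

open SimpleGraph Pool.Agent.Helper57.TOK Pool.Agent.Helper57.TD Pool.Agent.Helper82.TK
  Pool.Agent.Helper51.GX Pool.Agent.Helper1.GL Pool.Agent.Helper75.GX

variable {V : Type*}

section

variable {G : SimpleGraph V} {U M : Set V} {x l1 l2 l3 : V}

/-- Case: `x` in the boundary and `l1` in the set: impossible. -/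
lemma Tie.case_l1 [Finite V] (h : Tie G U M x l1 l2 l3) {Y N Z : Set V} {κ : V → ZMod 2}
    (hκ : ∀ u v, u ∈ Y → (tieG G M x l1 l2 l3).Adj u v → κ u ≠ κ v)
    (hY : Y ⊆ tieU M x l1 l2 l3) (hY2 : 2 ≤ Y.ncard) (hN3 : N.ncard = 3)
    (hNU : N ⊆ tieU M x l1 l2 l3)
    (hYN : ∀ u ∈ Y, ∀ v, (tieG G M x l1 l2 l3).Adj u v → v ∈ Y ∨ v ∈ N)
    (hZN : ∀ u ∈ Z, ∀ v, (tieG G M x l1 l2 l3).Adj u v → v ∈ Z ∨ v ∈ N)
    (hZU : Z ⊆ tieU M x l1 l2 l3) (hYZ : Disjoint Y Z) (hYNd : Disjoint Y N)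
    (hZNd : Disjoint Z N) (hZ : Z.Nonempty)
    (hxN : x ∈ N) (h1Y : l1 ∈ Y) : False := by
  classical
  have hdYN : ∀ v, v ∈ Y → v ∉ N := fun v hv => Set.disjoint_left.1 hYNd hv
  have hdYZ : ∀ v, v ∈ Y → v ∉ Z := fun v hv => Set.disjoint_left.1 hYZ hv
  have hdZN : ∀ v, v ∈ Z → v ∉ N := fun v hv => Set.disjoint_left.1 hZNd hv
  have hx1 : κ l1 ≠ κ x := hκ l1 x h1Y h.xl1.symm
  have h12 : κ l1 ≠ κ l2 := hκ l1 l2 h1Y h.ll
  have h2Y : l2 ∉ Y := by
    intro h2Y
    exact z2_tri h12 hx1 (hκ l2 x h2Y h.xl2.symm)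
  have h2N : l2 ∈ N := by
    rcases hYN l1 h1Y l2 h.ll with h1 | h1
    · exact absurd h1 h2Y
    · exact h1
  obtain ⟨s, hNe, hsx, hs2⟩ := three_of_two hN3 hxN h2N h.x2
  have hxZ : x ∉ Z := fun hh => hdZN x hh hxN
  have hxY : x ∉ Y := fun hh => hdYN x hh hxN
  have h1Z : l1 ∉ Z := fun hh => hdYZ l1 h1Y hh
  have h2Z : l2 ∉ Z := fun hh => hdZN l2 hh h2N
  by_cases h3Z : l3 ∈ Z
  · have hsN : s ∈ N := by rw [hNe]; simp
    have hsM : s ∈ M := by
      rcases mem_tieU.1 (hNU hsN) with h1 | h1 | h1 | h1 | h1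
      · exact h1
      · exact absurd h1 hsx
      · exact absurd (h1 ▸ hsN) (hdYN l1 h1Y)
      · exact absurd h1 hs2
      · exact absurd (h1 ▸ hsN) (hdZN l3 h3Z)
    have hn : ∀ u ∈ Y ∩ M, ∀ v, G.Adj u v → v ∈ Y ∩ M ∨ v ∈ ({l1, l2, s} : Set V) := by
      rintro u ⟨hu, huM⟩ v huv
      rcases hYN u hu v ((h.adjM huM).2 huv) with h1 | h1
      · rcases mem_tieU.1 (hY h1) with h2 | h2 | h2 | h2 | h2
        · exact Or.inl ⟨h1, h2⟩
        · exact absurd (h2 ▸ h1) hxY
        · exact Or.inr (Or.inl h2)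
        · exact absurd (h2 ▸ h1) h2Y
        · exact absurd h3Z (hdYZ l3 (h2 ▸ h1))
      · rw [hNe] at h1
        rcases h1 with h1 | h1 | h1
        · exact absurd (h1 ▸ huv.symm) (h.x_not huM)
        · exact Or.inr (Or.inr (Or.inl h1))
        · exact Or.inr (Or.inr (Or.inr h1))
    have hc : (Y ∩ M).ncard ≤ 1 := by
      refine h.three Set.inter_subset_right ?_ hn (ncard_triple_le _ _ _)
      intro hh
      have : s ∈ Y ∩ M := by rw [hh]; exact hsM
      exact hdYN s this.1 hsN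
    obtain ⟨y, hy, hyl⟩ : ∃ y ∈ Y, y ≠ l1 := by
      by_contra hcon
      push Not at hcon
      have h1 : Y ⊆ {l1} := fun v hv => hcon v hv
      have h2 := Set.ncard_le_ncard h1 (Set.toFinite _)
      rw [Set.ncard_singleton] at h2
      omega
    have hyM : y ∈ M := by
      rcases mem_tieU.1 (hY hy) with h2 | h2 | h2 | h2 | h2
      · exact h2
      · exact absurd (h2 ▸ hy) hxY
      · exact absurd h2 hyl
      · exact absurd (h2 ▸ hy) h2Y
      · exact absurd h3Z (hdYZ l3 (h2 ▸ hy))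
    have hya := h.all3 (a := l1) (b := l2) (d := s) hyM (by
      intro v hv
      rcases hn y ⟨hy, hyM⟩ v hv with h1 | h1
      · exact absurd (eq_of_ncard_le_one hc h1 ⟨hy, hyM⟩) hv.ne'
      · exact h1)
    have e1 := hκ y l1 hy ((h.adjM hyM).2 hya.1)
    have e2 := hκ y l2 hy ((h.adjM hyM).2 hya.2.1)
    exact h12 (z2_two e1 e2)
  · have hZM : Z ⊆ M := by
      intro u hu
      rcases mem_tieU.1 (hZU hu) with h2 | h2 | h2 | h2 | h2
      · exact h2
      · exact absurd (h2 ▸ hu) hxZ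
      · exact absurd (h2 ▸ hu) h1Z
      · exact absurd (h2 ▸ hu) h2Z
      · exact absurd (h2 ▸ hu) h3Z
    have hZe : Z = ∅ := by
      refine h.small (Q := {l2, s}) hZM ?_ (ncard_pair_le' _ _)
      intro u hu v huv
      rcases hZN u hu v ((h.adjM (hZM hu)).2 huv) with h1 | h1
      · exact Or.inl h1
      · rw [hNe] at h1
        rcases h1 with h1 | h1 | h1
        · exact absurd (h1 ▸ huv.symm) (h.x_not (hZM hu))
        · exact Or.inr (Or.inl h1)
        · exact Or.inr (Or.inr h1)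
    exact hZ.ne_empty hZe

/-- Case: `x` in the boundary, only `l3` in the set: the set is not dense. -/
lemma Tie.case_l3 [Finite V] (h : Tie G U M x l1 l2 l3) {Y N : Set V} {κ : V → ZMod 2}
    (hκ : ∀ u v, u ∈ Y → (tieG G M x l1 l2 l3).Adj u v → κ u ≠ κ v)
    (hY : Y ⊆ tieU M x l1 l2 l3) (hY2 : 2 ≤ Y.ncard) (hN3 : N.ncard = 3)
    (hYN : ∀ u ∈ Y, ∀ v, (tieG G M x l1 l2 l3).Adj u v → v ∈ Y ∨ v ∈ N)
    (hYNd : Disjoint Y N)
    (hxN : x ∈ N) (h1Y : l1 ∉ Y) (h2Y : l2 ∉ Y) (h3Y : l3 ∈ Y) :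
    fden (tieG G M x l1 l2 l3) Y ≤ 0 := by
  classical
  have hdYN : ∀ v, v ∈ Y → v ∉ N := fun v hv => Set.disjoint_left.1 hYNd hv
  have hxY : x ∉ Y := fun hh => hdYN x hh hxN
  obtain ⟨s, t, hNe, hsx, htx, hst⟩ := three_of_one hN3 hxN
  have hn : ∀ u ∈ Y ∩ M, ∀ v, G.Adj u v → v ∈ Y ∩ M ∨ v ∈ ({l3, s, t} : Set V) := by
    rintro u ⟨hu, huM⟩ v huv
    rcases hYN u hu v ((h.adjM huM).2 huv) with h1 | h1
    · rcases mem_tieU.1 (hY h1) with h2 | h2 | h2 | h2 | h2
      · exact Or.inl ⟨h1, h2⟩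
      · exact absurd (h2 ▸ h1) hxY
      · exact absurd (h2 ▸ h1) h1Y
      · exact absurd (h2 ▸ h1) h2Y
      · exact Or.inr (Or.inl h2)
    · rw [hNe] at h1
      rcases h1 with h1 | h1 | h1
      · exact absurd (h1 ▸ huv.symm) (h.x_not huM)
      · exact Or.inr (Or.inr (Or.inl h1))
      · exact Or.inr (Or.inr (Or.inr h1))
  have hc : (Y ∩ M).ncard ≤ 1 := by
    refine h.three Set.inter_subset_right ?_ hn (ncard_triple_le _ _ _)
    intro hh
    refine h.nonbal κ (fun u v hu huv => hκ u v ?_ ((h.adjM hu).2 huv))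
    have : u ∈ Y ∩ M := by rw [hh]; exact hu
    exact this.1
  obtain ⟨y, hy, hyl⟩ : ∃ y ∈ Y, y ≠ l3 := by
    by_contra hcon
    push Not at hcon
    have h1 : Y ⊆ {l3} := fun v hv => hcon v hv
    have h2 := Set.ncard_le_ncard h1 (Set.toFinite _)
    rw [Set.ncard_singleton] at h2
    omega
  have hcase : ∀ v ∈ Y, v = l3 ∨ v = y := by
    have hM' : ∀ v ∈ Y, v ≠ l3 → v ∈ M := by
      intro v hv hvl
      rcases mem_tieU.1 (hY hv) with h2 | h2 | h2 | h2 | h2
      · exact h2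
      · exact absurd (h2 ▸ hv) hxY
      · exact absurd (h2 ▸ hv) h1Y
      · exact absurd (h2 ▸ hv) h2Y
      · exact absurd h2 hvl
    intro v hv
    by_cases hvl : v = l3
    · exact Or.inl hvl
    · exact Or.inr (eq_of_ncard_le_one hc ⟨hv, hM' v hv hvl⟩ ⟨hy, hM' y hy hyl⟩)
  have hyM : y ∈ M := by
    rcases mem_tieU.1 (hY hy) with h2 | h2 | h2 | h2 | h2
    · exact h2
    · exact absurd (h2 ▸ hy) hxY
    · exact absurd (h2 ▸ hy) h1Y
    · exact absurd (h2 ▸ hy) h2Y
    · exact absurd h2 hyl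
  have hynb : ∀ v, G.Adj y v → v = l3 ∨ v = s ∨ v = t := by
    intro v hv
    rcases hn y ⟨hy, hyM⟩ v hv with h1 | h1
    · exact absurd (eq_of_ncard_le_one hc h1 ⟨hy, hyM⟩) hv.ne'
    · exact h1
  have hya := h.all3 (a := l3) (b := s) (d := t) hyM hynb
  have e1 := hκ y l3 hy ((h.adjM hyM).2 hya.1)
  have e2 := hκ y s hy ((h.adjM hyM).2 hya.2.1)
  have e3 := hκ y t hy ((h.adjM hyM).2 hya.2.2)
  have hYe : Y = {l3, y} := by
    apply Set.Subset.antisymm
    · intro v hv
      exact hcase v hv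
    · rintro v (rfl | rfl)
      · exact h3Y
      · exact hy
  have hEA : EAt (tieG G M x l1 l2 l3) Y ⊆ {s(y, l3), s(y, s), s(y, t), s(l3, x)} := by
    have key : ∀ u v, u ∈ Y → (tieG G M x l1 l2 l3).Adj u v →
        s(u, v) ∈ ({s(y, l3), s(y, s), s(y, t), s(l3, x)} : Set (Sym2 V)) := by
      intro u v hu huv
      rcases hcase u hu with rfl | rfl
      · rcases hYN u hu v huv with h1 | h1
        · rcases hcase v h1 with rfl | rfl
          · exact absurd rfl huv.ne
          · left; exact Sym2.eq_swap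
        · rw [hNe] at h1
          rcases h1 with rfl | rfl | rfl
          · right; right; right; rfl
          · exact absurd (z2_two e1 e2) (hκ u _ hu huv)
          · exact absurd (z2_two e1 e3) (hκ u _ hu huv)
      · rcases hynb v ((h.adjM hyM).1 huv) with rfl | rfl | rfl
        · left; rfl
        · right; left; rfl
        · right; right; left; rfl
    intro e
    induction e using Sym2.ind with
    | _ u v =>
      intro he
      rw [mem_EAt] at he
      rcases he.2 with h1 | h1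
      · exact key u v h1 he.1
      · have h5 := key v u h1 he.1.symm
        rwa [Sym2.eq_swap (a := v) (b := u)] at h5
  have h1 := Set.ncard_le_ncard hEA (Set.toFinite _)
  have h2 : ({s(y, l3), s(y, s), s(y, t), s(l3, x)} : Set (Sym2 V)).ncard ≤ 4 := by
    have b1 := Set.ncard_insert_le s(y, l3) ({s(y, s), s(y, t), s(l3, x)} : Set (Sym2 V))
    have b2 := ncard_triple_le s(y, s) s(y, t) s(l3, x)
    omega
  have h3 : rho (tieG G M x l1 l2 l3) Y = (EAt (tieG G M x l1 l2 l3) Y).ncard := rfl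
  have h4 : Y.ncard = 2 := by rw [hYe]; exact Set.ncard_pair (Ne.symm hyl)
  unfold fden
  omega

/-- A balanced set with three neighbours and a nonempty rest is not dense, or there is a TOK4. -/
theorem Tie.sparse_or [Finite V] (h : Tie G U M x l1 l2 l3) {Y : Set V}
    (hY : Y ⊆ tieU M x l1 l2 l3) (hY2 : 2 ≤ Y.ncard)
    (hN3 : (Nb (tieG G M x l1 l2 l3) Y).ncard = 3)
    (hZ : (tieU M x l1 l2 l3 \ (Y ∪ Nb (tieG G M x l1 l2 l3) Y)).Nonempty)
    (κ : V → ZMod 2) (hb : BalOn (tieG G M x l1 l2 l3) (fun _ => 1) Y κ) :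
    fden (odG (tieG G M x l1 l2 l3) (fun _ => 1)) Y ≤ beta κ (Nb (tieG G M x l1 l2 l3) Y) ∨
      HasTOK4s (tieG G M x l1 l2 l3) (fun _ => 1) := by
  classical
  rw [odG_one]
  set T := tieG G M x l1 l2 l3 with hT
  set N := Nb T Y with hNd
  set Z := tieU M x l1 l2 l3 \ (Y ∪ N) with hZd
  have hκ : ∀ u v, u ∈ Y → T.Adj u v → κ u ≠ κ v := fun u v hu huv => bal_ne hb hu huv
  have hYN : ∀ u ∈ Y, ∀ v, T.Adj u v → v ∈ Y ∨ v ∈ N := fun u hu v huv => mem_or_Nb1 hu huv
  have hZN : ∀ u ∈ Z, ∀ v, T.Adj u v → v ∈ Z ∨ v ∈ N := by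
    intro u hu v huv
    by_cases hvN : v ∈ N
    · exact Or.inr hvN
    · refine Or.inl ⟨h.edge huv.symm, ?_⟩
      rintro (h1 | h1)
      · rcases hYN v h1 u huv.symm with h2 | h2
        · exact hu.2 (Or.inl h2)
        · exact hu.2 (Or.inr h2)
      · exact hvN h1
  have hNU : N ⊆ tieU M x l1 l2 l3 := by
    rintro v ⟨-, u, -, huv⟩
    exact h.edge huv.symm
  have hZU : Z ⊆ tieU M x l1 l2 l3 := fun u hu => hu.1
  have hYZ : Disjoint Y Z := by
    rw [Set.disjoint_left]; exact fun u hu hu' => hu'.2 (Or.inl hu)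
  have hYNd : Disjoint Y N := by
    rw [Set.disjoint_left]; exact fun u hu hu' => hu'.1 hu
  have hZNd : Disjoint Z N := by
    rw [Set.disjoint_left]; exact fun u hu hu' => hu.2 (Or.inr hu')
  have hcov : ∀ u ∈ tieU M x l1 l2 l3, u ∈ Y ∨ u ∈ N ∨ u ∈ Z := by
    intro u hu
    by_cases h1 : u ∈ Y
    · exact Or.inl h1
    by_cases h2 : u ∈ N
    · exact Or.inr (Or.inl h2)
    · exact Or.inr (Or.inr ⟨hu, by rintro (h3 | h3); exacts [h1 h3, h2 h3]⟩)
  by_cases hxY : x ∈ Y
  · -- all roots in `Y ∪ N`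
    have hxN : x ∉ N := Set.disjoint_left.1 hYNd hxY
    have hxZ : x ∉ Z := Set.disjoint_left.1 hYZ hxY
    have r1 := hYN x hxY l1 h.xl1
    have r2 := hYN x hxY l2 h.xl2
    have r3 := hYN x hxY l3 h.xl3
    have hk1 := hκ x l1 hxY h.xl1
    have hk2 := hκ x l2 hxY h.xl2
    have h1Y : l1 ∉ Y := fun h1 => hκ l1 l2 h1 h.ll (z2_two hk1 hk2)
    have h2Y : l2 ∉ Y := fun h1 => hκ l2 l1 h1 h.ll.symm (z2_two hk2 hk1)
    have h1N : l1 ∈ N := r1.resolve_left h1Y
    have h2N : l2 ∈ N := r2.resolve_left h2Y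
    have hZM : Z ⊆ M := by
      intro u hu
      have hu2 : u ∉ Y ∧ u ∉ N := ⟨fun hh => hu.2 (Or.inl hh), fun hh => hu.2 (Or.inr hh)⟩
      rcases mem_tieU.1 (hZU hu) with h2 | h2 | h2 | h2 | h2
      · exact h2
      · exact absurd (h2 ▸ hu) hxZ
      · exact absurd (h2 ▸ h1N) hu2.2
      · exact absurd (h2 ▸ h2N) hu2.2
      · rcases r3 with h3 | h3
        · exact absurd (h2 ▸ h3) hu2.1
        · exact absurd (h2 ▸ h3) hu2.2
    obtain ⟨s, hNe, hs1, hs2⟩ := three_of_two hN3 h1N h2N h.l12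
    have hsN : s ∈ N := by rw [hNe]; simp
    have hZQ : ∀ u ∈ Z, ∀ v, G.Adj u v → v ∈ Z ∨ v ∈ N := fun u hu v huv =>
      hZN u hu v ((h.adjM (hZM hu)).2 huv)
    rcases r3 with h3Y | h3N
    · -- the bad case
      have hsM : s ∈ M := by
        rcases mem_tieU.1 (hNU hsN) with h1 | h1 | h1 | h1 | h1
        · exact h1
        · exact absurd (h1 ▸ hsN) hxN
        · exact absurd h1 hs1
        · exact absurd h1 hs2
        · exact absurd (h1 ▸ hsN) (Set.disjoint_left.1 hYNd h3Y)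
      have hZ1 : Z.ncard ≤ 1 := by
        refine h.three hZM ?_ hZQ (by omega)
        intro hh
        have : s ∈ Z := by rw [hh]; exact hsM
        exact this.2 (Or.inr hsN)
      obtain ⟨z, hz⟩ := hZ
      have hzM : z ∈ M := hZM hz
      have hza := h.all3 (a := l1) (b := l2) (d := s) hzM (by
        intro v hv
        rcases hZQ z hz v hv with h1 | h1
        · exact absurd (eq_of_ncard_le_one hZ1 h1 hz) hv.ne'
        · rw [hNe] at h1; exact h1)
      right
      refine h.tok_of_bad (Y := Y) (s := s) (z := z) hκ hxY h3Y hsM hzM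
        (fun hh => Set.disjoint_left.1 hYNd hh hsN) (fun hh => hz.2 (Or.inl hh)) ?_ ?_ h1Y h2Y
        ?_ hza
      · rintro rfl
        exact hz.2 (Or.inr hsN)
      · intro u hu
        rcases hcov u (Or.inl hu) with h1 | h1 | h1
        · exact Or.inl h1
        · rw [hNe] at h1
          rcases h1 with h1 | h1 | h1
          · exact absurd (h1 ▸ hu) h.m1.1
          · exact absurd (h1 ▸ hu) h.m2.1
          · exact Or.inr (Or.inl h1)
        · exact Or.inr (Or.inr (eq_of_ncard_le_one hZ1 h1 hz))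
      · intro u hu v huv
        rcases hYN u hu v huv with h1 | h1
        · exact Or.inl h1
        · rw [hNe] at h1
          exact Or.inr h1
    · -- `N = L`
      exfalso
      have hsl : s = l3 := by
        rw [hNe] at h3N
        rcases h3N with h1 | h1 | h1
        · exact absurd h1.symm h.l13
        · exact absurd h1.symm h.l23
        · exact h1.symm
      obtain ⟨z, hz⟩ := hZ
      have hZne : Y ∩ M ≠ M := by
        intro hh
        have h1 : z ∈ Y ∩ M := by rw [hh]; exact hZM hz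
        exact hz.2 (Or.inl h1.1)
      have hYQ : ∀ u ∈ Y ∩ M, ∀ v, G.Adj u v → v ∈ Y ∩ M ∨ v ∈ N := by
        rintro u ⟨hu, huM⟩ v huv
        rcases hYN u hu v ((h.adjM huM).2 huv) with h1 | h1
        · rcases mem_tieU.1 (hY h1) with h2 | h2 | h2 | h2 | h2
          · exact Or.inl ⟨h1, h2⟩
          · exact absurd (h2 ▸ huv.symm) (h.x_not huM)
          · exact absurd (h2 ▸ h1) h1Y
          · exact absurd (h2 ▸ h1) h2Y
          · exact Or.inr (h2 ▸ h3N)
        · exact Or.inr h1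
      have hY1 : (Y ∩ M).ncard ≤ 1 := h.three Set.inter_subset_right hZne hYQ (by omega)
      obtain ⟨y, hy, hyx⟩ : ∃ y ∈ Y, y ≠ x := by
        by_contra hcon
        push Not at hcon
        have h1 : Y ⊆ {x} := fun v hv => hcon v hv
        have h2 := Set.ncard_le_ncard h1 (Set.toFinite _)
        rw [Set.ncard_singleton] at h2
        omega
      have hyM : y ∈ M := by
        rcases mem_tieU.1 (hY hy) with h2 | h2 | h2 | h2 | h2
        · exact h2
        · exact absurd h2 hyx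
        · exact absurd (h2 ▸ hy) h1Y
        · exact absurd (h2 ▸ hy) h2Y
        · exact absurd h3N (Set.disjoint_left.1 hYNd (h2 ▸ hy))
      have hZ1 : Z.ncard ≤ 1 := by
        refine h.three hZM ?_ hZQ (by omega)
        intro hh
        have : y ∈ Z := by rw [hh]; exact hyM
        exact this.2 (Or.inl hy)
      have hMN : ∀ u ∈ M, ∀ v, G.Adj u v → v ∉ M := by
        intro u hu v huv hvM
        have hu' : u ∈ Y ∩ M ∨ u ∈ Z := by
          rcases hcov u (Or.inl hu) with h1 | h1 | h1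
          · exact Or.inl ⟨h1, hu⟩
          · rw [hNe, hsl] at h1
            exact absurd hu (h.notM (Or.inr h1))
          · exact Or.inr h1
        rcases hu' with h1 | h1
        · rcases hYQ u h1 v huv with h2 | h2
          · exact huv.ne (eq_of_ncard_le_one hY1 h1 h2)
          · rw [hNe, hsl] at h2
            exact h.notM (Or.inr h2) hvM
        · rcases hZQ u h1 v huv with h2 | h2
          · exact huv.ne (eq_of_ncard_le_one hZ1 h1 h2)
          · rw [hNe, hsl] at h2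
            exact h.notM (Or.inr h2) hvM
      refine h.nonbal (fun v => if v ∈ M then 1 else 0) ?_
      intro u v hu huv
      have := hMN u hu v huv
      simp only [if_pos hu, if_neg this]
      exact one_ne_zero
  · by_cases hroots : l1 ∈ Y ∨ l2 ∈ Y ∨ l3 ∈ Y
    · have hxN : x ∈ N := by
        rcases hroots with h1 | h1 | h1
        · exact (hYN l1 h1 x h.xl1.symm).resolve_left hxY
        · exact (hYN l2 h1 x h.xl2.symm).resolve_left hxY
        · exact (hYN l3 h1 x h.xl3.symm).resolve_left hxY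
      by_cases h1Y : l1 ∈ Y
      · exact (h.case_l1 hκ hY hY2 hN3 hNU hYN hZN hZU hYZ hYNd hZNd hZ hxN h1Y).elim
      by_cases h2Y : l2 ∈ Y
      · exfalso
        refine h.swap.case_l1 (Y := Y) (N := N) (Z := Z) (κ := κ) ?_ ?_ hY2 hN3 ?_ ?_ ?_ ?_ hYZ
          hYNd hZNd hZ hxN h2Y
        · rw [tieG_swap]; exact hκ
        · rw [tieU_swap]; exact hY
        · rw [tieU_swap]; exact hNU
        · rw [tieG_swap]; exact hYN
        · rw [tieG_swap]; exact hZN
        · rw [tieU_swap]; exact hZU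
      · have h3Y : l3 ∈ Y := by tauto
        left
        exact (h.case_l3 hκ hY hY2 hN3 hYN hYNd hxN h1Y h2Y h3Y).trans
          (beta_three_nonneg hN3 κ)
    · exfalso
      push Not at hroots
      have hYM : Y ⊆ M := by
        intro u hu
        rcases mem_tieU.1 (hY hu) with h2 | h2 | h2 | h2 | h2
        · exact h2
        · exact absurd (h2 ▸ hu) hxY
        · exact absurd (h2 ▸ hu) hroots.1
        · exact absurd (h2 ▸ hu) hroots.2.1
        · exact absurd (h2 ▸ hu) hroots.2.2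
      have h1 : Y.ncard ≤ 1 := by
        refine h.three (Q := N) hYM ?_ (fun u hu v huv => hYN u hu v ((h.adjM (hYM hu)).2 huv))
          (by omega)
        intro hh
        refine h.nonbal κ (fun u v hu huv => hκ u v ?_ ((h.adjM hu).2 huv))
        rw [hh]; exact hu
      omega

/-- The tie graph is in the class or has a TOK4. -/
theorem Tie.ex3_or [Finite V] (h : Tie G U M x l1 l2 l3) :
    Ex3 (tieG G M x l1 l2 l3) (fun _ => 1) (tieU M x l1 l2 l3) ∨
      HasTOK4s (tieG G M x l1 l2 l3) (fun _ => 1) := by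
  by_cases ht : HasTOK4s (tieG G M x l1 l2 l3) (fun _ => 1)
  · exact Or.inr ht
  · left
    refine ⟨fun u v huv => h.edge huv, h.deg2, h.conn', h.dens', h.idx, ?_⟩
    intro Y hY hY2 hN3 hZ κ hb
    exact (h.sparse_or hY hY2 hN3 hZ κ hb).resolve_right ht

/-- **The tie theorem.** -/
theorem Tie.tok [Finite V] (h : Tie G U M x l1 l2 l3)
    (IH : ∀ (G' : SimpleGraph V) (U' : Set V), Ex3 G' (fun _ => 1) U' → U'.ncard < U.ncard →
      HasTOK4s G' (fun _ => 1)) :
    HasTOK4s (tieG G M x l1 l2 l3) (fun _ => 1) := by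
  rcases h.ex3_or with h1 | h1
  · exact IH _ _ h1 h.card_lt
  · exact h1

/-- All three ties beside a minimal side have a TOK4. -/
theorem MSide.ties [Finite V] (h : MSide G U M l1 l2 l3)
    (IH : ∀ (G' : SimpleGraph V) (U' : Set V), Ex3 G' (fun _ => 1) U' → U'.ncard < U.ncard →
      HasTOK4s G' (fun _ => 1)) {x : V} (hx : x ∈ U \ (M ∪ {l1, l2, l3})) :
    HasTOK4s (tieG G M x l1 l2 l3) (fun _ => 1) ∧
      HasTOK4s (tieG G M x l2 l3 l1) (fun _ => 1) ∧
      HasTOK4s (tieG G M x l3 l1 l2) (fun _ => 1) := by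
  have hxM : x ∉ M := fun hh => hx.2 (Or.inl hh)
  have hx1 : x ≠ l1 := fun hh => hx.2 (Or.inr (Or.inl hh))
  have hx2 : x ≠ l2 := fun hh => hx.2 (Or.inr (Or.inr (Or.inl hh)))
  have hx3 : x ≠ l3 := fun hh => hx.2 (Or.inr (Or.inr (Or.inr hh)))
  have t1 : Tie G U M x l1 l2 l3 := ⟨h, hx.1, hxM, hx1, hx2, hx3⟩
  have t2 : Tie G U M x l2 l3 l1 := ⟨h.rot, hx.1, hxM, hx2, hx3, hx1⟩
  have t3 : Tie G U M x l3 l1 l2 := ⟨h.rot.rot, hx.1, hxM, hx3, hx1, hx2⟩
  exact ⟨t1.tok IH, t2.tok IH, t3.tok IH⟩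

end

end Pool.Agent.Helper75.SEP
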